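import Pool.Agent.Mg.S09345.G986f23

/-! Decompositions of complete graphs into cubes of an arbitrary dimension. -/

set_option autoImplicit false

namespace Pool.Agent.MP_6c8b06_co.All

open Finset

theorem counts {d : ℕ} {X : Type} [Fintype X] {R : X → X → Prop} [DecidableRel R] (h : Dec d R) :
    (∀ u, d ∣ #{v | R u v}) ∧ d * 2 ^ d ∣ ∑ u, #{v | R u v} := by
  classical
  obtain ⟨ι, hι, φ, hinj, hsub, hcov⟩ := h
  have := Fintype.ofFinite ι
  let A : X → Finset (ι × Cube d) := fun u => univ.filter fun p => φ p.1 p.2 = u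
  have hdeg : ∀ u, #(A u) * d = #{v | R u v} := by
    intro u
    have h1 : #(A u ×ˢ (univ : Finset (Fin d))) = #{v | R u v} := by
      refine card_bij (fun q _ => φ q.1.1 (flip q.2 q.1.2)) ?_ ?_ ?_
      · rintro ⟨⟨i, x⟩, j⟩ hq
        have e := (mem_filter.1 (mem_product.1 hq).1).2
        exact mem_filter.2 ⟨mem_univ _, hsub i _ _ ((covers_iff _ _ _).2 ⟨x, j, e, rfl⟩)⟩
      · rintro ⟨⟨i, x⟩, j⟩ hq ⟨⟨i', x'⟩, j'⟩ hq' h
        have e := (mem_filter.1 (mem_product.1 hq).1).2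
        have e' := (mem_filter.1 (mem_product.1 hq').1).2
        have c := (covers_iff _ _ _).2 ⟨x, j, e, rfl⟩
        obtain ⟨l, -, hl⟩ := hcov u _ (hsub i _ _ c)
        obtain rfl : i = i' :=
          (hl i c).trans (hl i' ((covers_iff _ _ _).2 ⟨x', j', e', h.symm⟩)).symm
        obtain rfl : x = x' := hinj i (e.trans e'.symm)
        obtain rfl : j = j' := flip_inj (hinj i h)
        rfl
      · intro v hv
        obtain ⟨i, hi, -⟩ := hcov u v (mem_filter.1 hv).2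
        obtain ⟨x, j, e1, e2⟩ := (covers_iff _ _ _).1 hi
        exact ⟨((i, x), j), mem_product.2 ⟨mem_filter.2 ⟨mem_univ _, e1⟩, mem_univ _⟩, e2⟩
    simpa using h1
  refine ⟨fun u => ⟨_, by rw [← hdeg u, mul_comm]⟩, Fintype.card ι, ?_⟩
  have h2 : #(univ : Finset (ι × Cube d)) = ∑ u, #(A u) :=
    card_eq_sum_card_fiberwise fun _ _ => mem_univ _
  simp only [← hdeg]
  rw [← sum_mul, ← h2]
  simp
  ring

theorem pw {n : ℕ} (h : 8 ≤ n) : 3 * (n + 1) ^ 2 ≤ 2 ^ n := by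
  induction n, h using Nat.le_induction with
  | base => norm_num
  | succ n hn ih =>
    rw [pow_succ 2]
    nlinarith

theorem num {n c : ℕ} (h : 8 ≤ n) (hc : 2 ^ (n + 1) ≤ c * (n + 1) + 2 * (n + 1) ^ 2) :
    2 ^ n ≤ c * n + 1 := by
  have h1 := pw h
  have h2 := Nat.mul_le_mul_left c h
  rw [pow_succ 2, mul_add c] at hc
  omega

section
variable {G : Type} [AddCommGroup G] [Module (ZMod 2) G] [DecidableEq G]

theorem big [Finite G] {n : ℕ} (hn : 8 ≤ n) (S : Finset G) (hd : n + 1 ∣ #S) (h0 : 0 ∉ S)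
    (h : S = ∅ ∨ 2 ^ (n + 1) ≤ #S + 2 * (n + 1) ^ 2) : CayDec (n + 1) S := by
  rcases h with rfl | h
  · exact (Dec.empty _).congr (by simp)
  · obtain ⟨c, hc⟩ := hd
    rw [mul_comm] at hc
    exact cayDec_crude n c S hc h0 (num hn (hc ▸ h))

theorem bases [Fintype G] {n : ℕ} (hn : 8 ≤ n) (hG : Fintype.card G = 2 ^ (n + 1)) {Z : Type}
    [Fintype Z] (hZ : Fintype.card Z = n) : ∃ T : Z → Finset G,
      (∀ c, #(T c) = n + 1 ∧ rk (T c) = n + 1) ∧ ∀ c c' g, g ∈ T c → g ∈ T c' → c = c' := by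
  have h1 := pw hn
  obtain ⟨c, hc⟩ : ∃ c, c = (2 ^ (n + 1) - 1) / (n + 1) := ⟨_, rfl⟩
  have h2 : c * (n + 1) ≤ 2 ^ (n + 1) - 1 := hc ▸ Nat.div_mul_le_self _ _
  have h3 : 2 ^ (n + 1) - 1 < c * (n + 1) + (n + 1) := hc ▸ Nat.lt_div_mul_add (by omega)
  have h4 : n + 1 ≤ (n + 1) ^ 2 := by nlinarith
  obtain ⟨S, s1, s2⟩ := exists_subset_card_eq (s := univ.erase (0 : G)) (n := c * (n + 1))
    (by rwa [card_erase_of_mem (mem_univ _), card_univ, hG])
  obtain ⟨T, t1, t2⟩ := rado_horn (n + 1) c S s2 fun J hJ hr => by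
    have a := card_crude J fun h => (mem_erase.1 (s1 (hJ h))).1 rfl
    rcases hj : rk J with _ | j
    · rw [hj] at a
      omega
    · have := crude_down c n (num hn (by omega)) j (by omega)
      rw [hj] at a
      omega
  obtain ⟨f⟩ : Nonempty (Z ↪ Fin c) := Function.Embedding.nonempty_of_card_le (by
    rw [hZ, Fintype.card_fin]
    rw [pow_succ 2] at h3
    by_contra h5
    have := Nat.mul_le_mul_right (n + 1) (show c + 1 ≤ n + 1 by omega)
    rw [← sq, add_mul] at this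
    omega)
  exact ⟨fun z => T (f z), fun z => (t1 _).2,
    fun z z' g a b => f.injective ((t2 g ((t1 _).1 a)).unique a b)⟩

omit [Module (ZMod 2) G] in
theorem gm {d : ℕ} {I : Type} [Finite I] (Q P : Sym2 I → Finset G)
    (hp : ∀ a b, a ≠ b → CayDec d (Q s(a, b) ×ˢ ({1} : Finset (ZMod 2)) ∪ P s(a, b) ×ˢ {0}))
    (hl : ∀ a, CayDec d (P s(a, a)))
    (hd : ∀ a b b' g, g ∈ P s(a, b) → g ∈ P s(a, b') → b = b') :
    Dec d fun u v : I × G => (u.1 ≠ v.1 ∧ u.2 + v.2 ∈ Q s(u.1, v.1)) ∨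
      (u.1 = v.1 ∧ ∃ b, u.2 + v.2 ∈ P s(u.1, b)) := by
  refine Dec.glue (J := Sym2 I) (fun e u v => (u.1 ≠ v.1 ∧ e = s(u.1, v.1) ∧ u.2 + v.2 ∈ Q e) ∨
    (u.1 = v.1 ∧ u.1 ∈ e ∧ u.2 + v.2 ∈ P e)) _ (fun e => ?_) ?_ ?_
  · induction e using Sym2.ind with | _ a b => ?_
    by_cases h : a = b
    · subst h
      refine (dec_loop a _ (hl a)).congr ?_
      rintro ⟨p, x⟩ ⟨q, y⟩
      simp only [Sym2.eq_iff, Sym2.mem_iff]
      grind
    · refine (dec_pair a b h _ _ (hp a b h)).congr ?_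
      rintro ⟨p, x⟩ ⟨q, y⟩
      simp only [Sym2.eq_iff, Sym2.mem_iff]
      grind
  · rintro e u v (⟨h, rfl, h'⟩ | ⟨h, h1, h'⟩)
    · exact Or.inl ⟨h, h'⟩
    · obtain ⟨b, rfl⟩ := Sym2.mem_iff_exists.1 h1
      exact Or.inr ⟨h, b, h'⟩
  · rintro u v (⟨h, h'⟩ | ⟨h, b, h'⟩)
    · refine ⟨s(u.1, v.1), Or.inl ⟨h, rfl, h'⟩, ?_⟩
      rintro e (⟨-, e1, -⟩ | ⟨e1, -⟩)
      · exact e1
      · exact absurd e1 h
    · refine ⟨s(u.1, b), Or.inr ⟨h, Sym2.mem_mk_left _ _, h'⟩, ?_⟩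
      rintro e (⟨e1, -⟩ | ⟨-, e1, e2⟩)
      · exact absurd h e1
      · obtain ⟨b', rfl⟩ := Sym2.mem_iff_exists.1 e1
        rw [hd _ _ _ _ e2 h']

theorem repair [Fintype G] {n : ℕ} (hn : 8 ≤ n) (hG : Fintype.card G = 2 ^ (n + 1)) {I : Type}
    [Fintype I] [DecidableEq I] (hI : Fintype.card I ≤ 2 * n + 2) (hole : I → Prop)
    (Q : Sym2 I → Finset G) (hQ : ∀ e, Q e = ∅ ∨ 2 ^ (n + 1) ≤ #(Q e) + (n + 1) ^ 2)
    (hh : ∀ a b, hole a → n + 1 ∣ #(Q s(a, b)))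
    (hN : ∀ a, ¬ hole a → n + 1 ∣ 2 ^ (n + 1) - 1 + ∑ b ∈ univ.erase a, #(Q s(a, b))) :
    Dec (n + 1) fun u v : I × G => (u.1 ≠ v.1 ∧ u.2 + v.2 ∈ Q s(u.1, v.1)) ∨
      (u.1 = v.1 ∧ ¬ hole u.1 ∧ u.2 ≠ v.2) := by
  classical
  have h1 := pw hn
  have hR : #(univ.erase (0 : G)) = 2 ^ (n + 1) - 1 := by
    rw [card_erase_of_mem (mem_univ _), card_univ, hG]
  obtain ⟨φ⟩ : Nonempty (I ↪ Fin (2 * n + 2)) :=
    Function.Embedding.nonempty_of_card_le (by rwa [Fintype.card_fin])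
  let col : Sym2 I → Fin (2 * n + 2) := Sym2.lift ⟨fun a b => φ a + φ b, fun _ _ => add_comm _ _⟩
  obtain ⟨P', p1, p2, p3⟩ := exists_disjoint_family (2 * n + 2) n (univ.erase (0 : G)) (by
    rw [hR, pow_succ 2]
    have : (2 * n + 2) * n + 1 ≤ 3 * (n + 1) ^ 2 := by nlinarith
    omega)
  have hr : ∀ e, ∃ P ⊆ P' (col e), n + 1 ∣ #(Q e) + #P ∧ (n + 1 ∣ #(Q e) → P = ∅) := fun e => by
    by_cases h : n + 1 ∣ #(Q e)
    · exact ⟨∅, empty_subset _, h, fun _ => rfl⟩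
    · have a1 := Nat.mod_lt #(Q e) (show 0 < n + 1 by omega)
      have a2 : #(Q e) % (n + 1) ≠ 0 := fun a => h (Nat.dvd_of_mod_eq_zero a)
      obtain ⟨P, b1, b2⟩ := exists_subset_card_eq (s := P' (col e))
        (n := n + 1 - #(Q e) % (n + 1)) (by rw [p2]; omega)
      refine ⟨P, b1, ⟨#(Q e) / (n + 1) + 1, ?_⟩, fun a => absurd a h⟩
      have := Nat.div_add_mod #(Q e) (n + 1)
      rw [mul_add]
      omega
  choose P q1 q2 q3 using hr
  have pd : ∀ a b b' g, g ∈ P s(a, b) → g ∈ P s(a, b') → b = b' := fun a b b' g x y => by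
    by_contra h
    exact disjoint_left.1 (p3 _ _ fun e => h (φ.injective (add_left_cancel e))) (q1 _ x) (q1 _ y)
  have p0 : ∀ e, P e ⊆ univ.erase 0 := fun e => (q1 e).trans (p1 _)
  let L : I → Finset G := fun a =>
    if hole a then ∅ else univ.erase 0 \ (univ.erase a).biUnion fun b => P s(a, b)
  let F : Sym2 I → Finset G := Sym2.lift ⟨fun a b => if a = b then L a else P s(a, b), fun a b => by
    by_cases h : a = b
    · rw [h]
    · beta_reduce
      rw [if_neg h, if_neg (Ne.symm h), Sym2.eq_swap]⟩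
  have f1 : ∀ a, F s(a, a) = L a := fun a => if_pos rfl
  have f2 : ∀ a b, a ≠ b → F s(a, b) = P s(a, b) := fun a b h => if_neg h
  have f3 : ∀ a b g, a ≠ b → g ∈ L a → g ∉ P s(a, b) := fun a b g h x y => by
    simp only [L] at x
    split_ifs at x
    · simp at x
    · exact (mem_sdiff.1 x).2 (mem_biUnion.2 ⟨b, mem_erase.2 ⟨h.symm, mem_univ _⟩, y⟩)
  refine (gm Q F (fun a b h => ?_) (fun a => ?_) fun a b b' g x y => ?_).congr ?_
  · rw [f2 a b h]
    refine big hn _ (by rw [card_pair]; exact q2 _)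
      (zero_notMem_pair _ _ fun h => (mem_erase.1 (p0 _ h)).1 rfl) ((hQ s(a, b)).imp ?_ ?_)
    · intro e
      rw [q3 _ (by simp [e]), e]
      simp
    · rw [card_pair]
      omega
  · rw [f1]
    by_cases h : hole a
    · exact big hn _ (by simp [L, h]) (by simp [L, h]) (Or.inl (if_pos h))
    · have c1 : #((univ.erase a).biUnion fun b => P s(a, b)) = ∑ b ∈ univ.erase a, #(P s(a, b)) :=
        card_biUnion fun b _ b' _ e => disjoint_left.2 fun g x y => e (pd a b b' g x y)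
      have c2 := card_sdiff_add_card_eq_card (s := (univ.erase a).biUnion fun b => P s(a, b))
        (biUnion_subset.2 fun b _ => p0 _)
      have c3 : ∑ b ∈ univ.erase a, #(P s(a, b)) ≤ #(univ.erase a) * n :=
        sum_le_card_nsmul _ _ _ fun b _ => (card_le_card (q1 _)).trans (p2 _).le
      have c4 : n + 1 ∣ ∑ b ∈ univ.erase a, (#(Q s(a, b)) + #(P s(a, b))) :=
        dvd_sum fun b _ => q2 _
      have c5 : #(univ.erase a) * n ≤ (2 * n + 2) * n :=
        Nat.mul_le_mul_right n ((card_le_univ _).trans hI)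
      have c6 : (2 * n + 2) * n + 1 ≤ 2 * (n + 1) ^ 2 := by nlinarith
      have c7 := hN a h
      rw [c1, hR] at c2
      rw [← c2, add_assoc, add_comm (∑ _ ∈ _, _), ← sum_add_distrib] at c7
      simp only [L, if_neg h]
      exact big hn _ ((Nat.dvd_add_left c4).1 c7) (by simp) (Or.inr (by omega))
  · by_cases h : a = b <;> by_cases h' : a = b'
    · exact h.symm.trans h'
    · rw [f2 _ _ h'] at y
      exact absurd y (f3 a b' g h' (by rwa [← h, f1] at x))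
    · rw [f2 _ _ h] at x
      exact absurd x (f3 a b g h (by rwa [← h', f1] at y))
    · rw [f2 _ _ h] at x
      rw [f2 _ _ h'] at y
      exact pd a b b' g x y
  · rintro ⟨a, x⟩ ⟨a', y⟩
    refine or_congr_right (and_congr_right fun _ => ⟨?_, fun h => ?_⟩)
    · rintro ⟨b, h⟩
      by_cases e : a = b
      · subst e
        rw [f1] at h
        simp only [L] at h
        split_ifs at h with h'
        · simp at h
        · exact ⟨h', (add_ne_zero_iff _ _).1 (mem_erase.1 (mem_sdiff.1 h).1).1⟩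
      · rw [f2 _ _ e] at h
        refine ⟨fun h' => ?_, (add_ne_zero_iff _ _).1 (mem_erase.1 (p0 _ h)).1⟩
        rw [q3 _ (hh a b h')] at h
        simp at h
    · by_cases e : x + y ∈ (univ.erase a).biUnion fun b => P s(a, b)
      · obtain ⟨b, b1, b2⟩ := mem_biUnion.1 e
        exact ⟨b, by rwa [f2 _ _ (mem_erase.1 b1).1.symm]⟩
      · refine ⟨a, ?_⟩
        rw [f1]
        simp only [L, if_neg h.1]
        exact mem_sdiff.2 ⟨mem_erase.2 ⟨(add_ne_zero_iff _ _).2 h.2, mem_univ _⟩, e⟩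

omit [DecidableEq G] in
theorem dec_quad [Finite G] {d : ℕ} {I : Type} {p q r s : I} (h1 : p ≠ q) (h2 : p ≠ r) (h3 : p ≠ s)
    (h4 : q ≠ r) (h5 : q ≠ s) (h6 : r ≠ s) (T : Finset G) (hc : #T = d) (hr : rk T = d)
    (β : G → Prop) : Dec d fun u v : I × G => u.2 + v.2 ∈ T ∧
      ((β (u.2 + v.2) ∧ (s(u.1, v.1) = s(p, r) ∨ s(u.1, v.1) = s(q, s))) ∨
        (¬ β (u.2 + v.2) ∧ (s(u.1, v.1) = s(p, q) ∨ s(u.1, v.1) = s(r, s)))) := by
  classical
  have hli : LinearIndependent (ZMod 2) (fun t : T => (t : G)) := by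
    rw [linearIndependent_iff_card_eq_finrank_span]
    simp only [Fintype.card_coe, Subtype.range_coe_subtype, Finset.setOfPred_mem]
    rw [hc, ← hr]
    rfl
  let e : Fin d ≃ T := (Finset.equivFinOfCardEq hc).symm
  let τ : G → ZMod 2 × ZMod 2 := fun g => if β g then (1, 0) else (0, 1)
  have h := dec_cayley_basis (fun i => ((e i : G), τ (e i)))
    (LinearIndependent.of_comp (LinearMap.fst _ _ _) (hli.comp e e.injective))
  let ι : ZMod 2 × ZMod 2 → I := fun a =>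
    if a.1 = 0 then (if a.2 = 0 then p else q) else (if a.2 = 0 then r else s)
  have h01 : (1 : ZMod 2) ≠ 0 := by decide
  have h11 : (1 + 1 : ZMod 2) = 0 := by decide
  have i1 : ι (0, 0) = p := by simp [ι]
  have i2 : ι (0, 1) = q := by simp [ι, h01]
  have i3 : ι (1, 0) = r := by simp [ι, h01]
  have i4 : ι (1, 1) = s := by simp [ι, h01]
  have hc : ∀ a : ZMod 2 × ZMod 2, a = (0, 0) ∨ a = (0, 1) ∨ a = (1, 0) ∨ a = (1, 1) := by decide
  have hι : Function.Injective ι := fun a b => by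
    rcases hc a with rfl | rfl | rfl | rfl <;> rcases hc b with rfl | rfl | rfl | rfl <;>
      simp only [i1, i2, i3, i4] <;> grind
  have k1 : ∀ x y, (∃ a b, ι a = x ∧ ι b = y ∧ a + b = (1, 0)) ↔
      s(x, y) = s(p, r) ∨ s(x, y) = s(q, s) := fun x y => by
    constructor
    · rintro ⟨a, b, rfl, rfl, h⟩
      rcases hc a with rfl | rfl | rfl | rfl <;> rcases hc b with rfl | rfl | rfl | rfl <;>
        first | exact absurd h (by decide) | simp [i1, i2, i3, i4]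
    · simp only [Sym2.eq_iff]
      rintro ((⟨rfl, rfl⟩ | ⟨rfl, rfl⟩) | ⟨rfl, rfl⟩ | ⟨rfl, rfl⟩)
      exacts [⟨_, _, i1, i3, by decide⟩, ⟨_, _, i3, i1, by decide⟩, ⟨_, _, i2, i4, by decide⟩,
        ⟨_, _, i4, i2, by decide⟩]
  have k2 : ∀ x y, (∃ a b, ι a = x ∧ ι b = y ∧ a + b = (0, 1)) ↔
      s(x, y) = s(p, q) ∨ s(x, y) = s(r, s) := fun x y => by
    constructor
    · rintro ⟨a, b, rfl, rfl, h⟩
      rcases hc a with rfl | rfl | rfl | rfl <;> rcases hc b with rfl | rfl | rfl | rfl <;>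
        first | exact absurd h (by decide) | simp [i1, i2, i3, i4]
    · simp only [Sym2.eq_iff]
      rintro ((⟨rfl, rfl⟩ | ⟨rfl, rfl⟩) | ⟨rfl, rfl⟩ | ⟨rfl, rfl⟩)
      exacts [⟨_, _, i1, i2, by decide⟩, ⟨_, _, i2, i1, by decide⟩, ⟨_, _, i3, i4, by decide⟩,
        ⟨_, _, i4, i3, by decide⟩]
  refine (h.map (fun z => (ι z.2, z.1)) fun z w e =>
    Prod.ext (congrArg Prod.snd e) (hι (congrArg Prod.fst e))).congr ?_
  rintro ⟨x, g⟩ ⟨y, g'⟩
  simp only [← k1, ← k2]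
  constructor
  · rintro ⟨⟨g1, a⟩, ⟨g2, b⟩, ⟨i, hi⟩, e1, e2⟩
    obtain ⟨rfl, rfl⟩ := Prod.mk.inj e1
    obtain ⟨rfl, rfl⟩ := Prod.mk.inj e2
    obtain ⟨e3, e4⟩ := Prod.mk.inj hi
    refine ⟨e3 ▸ (e i).2, ?_⟩
    rw [← e3] at e4
    by_cases hb : β (g1 + g2)
    · exact Or.inl ⟨hb, a, b, rfl, rfl, e4.trans (if_pos hb)⟩
    · exact Or.inr ⟨hb, a, b, rfl, rfl, e4.trans (if_neg hb)⟩
  · rintro ⟨hT, ⟨hb, a, b, rfl, rfl, e3⟩ | ⟨hb, a, b, rfl, rfl, e3⟩⟩ <;>
      exact ⟨(g, a), (g', b), ⟨e.symm ⟨_, hT⟩, by simp [τ, hb, e3]⟩, rfl, rfl⟩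

theorem hole [Fintype G] {n : ℕ} (hn : 8 ≤ n) (hG : Fintype.card G = 2 ^ (n + 1)) {Z K : Type}
    [AddCommGroup Z] [Fintype Z] (hZ : Fintype.card Z = n) (o : Z) (ho : o ≠ 0) (ho2 : o + o ≠ 0)
    [Fintype K] (κ : K ↪ Z) (hK : Fintype.card K * 2 ^ (n + 1) ≡ 1 [MOD n + 1]) :
    Dec (n + 1) fun u v : (K ⊕ Option Z) × G => u ≠ v ∧ (u.1.isRight ∨ v.1.isRight) := by
  classical
  obtain ⟨T, t1, t2⟩ := bases hn hG hZ
  have hρ := Nat.mod_lt (2 ^ (n + 1)) (show 0 < n + 1 by omega)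
  have hρ' := Nat.div_add_mod (2 ^ (n + 1)) (n + 1)
  generalize 2 ^ (n + 1) % (n + 1) = ρ at hρ hρ'
  choose B b1 b2 using fun c => exists_subset_card_eq (s := T c) (n := ρ) (by rw [(t1 c).1]; omega)
  have b3 : ∀ c g, g ∈ T c → ((∃ c, g ∈ B c) ↔ g ∈ B c) := fun c g h =>
    ⟨fun ⟨c', h'⟩ => t2 c' c g (b1 _ h') h ▸ h', fun h => ⟨c, h⟩⟩
  let W : K × Z → Sym2 (K ⊕ Option Z) → G → Prop := fun γ e g => g ∈ T (κ γ.1 + γ.2) ∧
    (((∃ c, g ∈ B c) ∧ (e = s(.inl γ.1, .inr (some γ.2)) ∨ e = s(.inr none, .inr (some (γ.2 + o))))) ∨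
      ((¬ ∃ c, g ∈ B c) ∧
        (e = s(.inl γ.1, .inr none) ∨ e = s(.inr (some γ.2), .inr (some (γ.2 + o))))))
  have o1 : ∀ j : Z, j ≠ j + o := fun j e => ho (left_eq_add.1 e)
  have w1 : ∀ γ x y g, W γ s(x, y) g → x ≠ y ∧ (x.isRight ∨ y.isRight) := by
    rintro ⟨k, j⟩ x y g ⟨-, h⟩
    simp only [Sym2.eq_iff] at h
    have := o1 j
    rcases h with ⟨-, (⟨rfl, rfl⟩ | ⟨rfl, rfl⟩) | ⟨rfl, rfl⟩ | ⟨rfl, rfl⟩⟩ |
      ⟨-, (⟨rfl, rfl⟩ | ⟨rfl, rfl⟩) | ⟨rfl, rfl⟩ | ⟨rfl, rfl⟩⟩ <;> simp [this, this.symm]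
  have w2 : ∀ γ γ' e g, W γ e g → W γ' e g → γ = γ' := by
    rintro ⟨k, j⟩ ⟨k', j'⟩ e g ⟨a, h⟩ ⟨a', h'⟩
    have c : κ k + j = κ k' + j' := t2 _ _ _ a a'
    have c1 : k = k' → (k, j) = (k', j') := fun e => by
      subst e
      rw [add_left_cancel c]
    have c2 : j = j' → (k, j) = (k', j') := fun e => by
      subst e
      rw [κ.injective (add_right_cancel c)]
    have c3 : j = j' + o → j + o = j' → False := fun e e' => ho2 (by
      rw [e, add_assoc] at e'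
      exact add_eq_left.1 e')
    rcases h with ⟨hb, rfl | rfl⟩ | ⟨hb, rfl | rfl⟩ <;>
      rcases h' with ⟨hb', h'⟩ | ⟨hb', h'⟩ <;> first | exact absurd hb hb' | exact absurd hb' hb | skip
    all_goals
      simp only [Sym2.eq_iff, Sum.inl.injEq, Sum.inr.injEq, Option.some.injEq, add_left_inj,
        reduceCtorEq, false_and, and_false, or_false, false_or, true_and, and_true] at h'
      grind
  have d1 : Dec (n + 1) fun u v : (K ⊕ Option Z) × G => ∃ γ, W γ s(u.1, v.1) (u.2 + v.2) :=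
    Dec.glue (fun γ u v => W γ s(u.1, v.1) (u.2 + v.2)) _
      (fun γ => dec_quad (by simp) (by simp) (by simp) (by simp) (by simp) (by simp [ho]) _
        (t1 _).1 (t1 _).2 fun g => ∃ c, g ∈ B c)
      (fun γ _ _ h => ⟨γ, h⟩) fun _ _ ⟨γ, h⟩ => ⟨γ, h, fun γ' h' => w2 _ _ _ _ h' h⟩
  let U : Sym2 (K ⊕ Option Z) → Finset G := fun e => {g | ∃ γ, W γ e g}
  let Q : Sym2 (K ⊕ Option Z) → Finset G := fun e => if ∀ x ∈ e, x.isLeft then ∅ else univ \ U e
  have q1 : ∀ x y, x.isRight ∨ y.isRight → Q s(x, y) = univ \ U s(x, y) := fun x y h =>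
    if_neg fun h' => by
      have a := h' x (Sym2.mem_mk_left _ _)
      have b := h' y (Sym2.mem_mk_right _ _)
      cases x <;> cases y <;> simp at h a b
  have q2 : ∀ k l, Q s(.inl k, .inl l) = ∅ := fun k l => if_pos (by simp)
  have q3 : ∀ e, #(univ \ U e) + #(U e) = 2 ^ (n + 1) := fun e => by
    rw [card_sdiff_add_card_eq_card (subset_univ _), card_univ, hG]
  have hKn : Fintype.card K ≤ n := hZ ▸ Fintype.card_le_of_embedding κ
  have hI : Fintype.card (K ⊕ Option Z) = Fintype.card K + (n + 1) := by simp [hZ]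
  refine (d1.or (repair hn hG (by omega) (fun x => x.isLeft) Q (fun e => ?_) ?_ ?_) ?_).congr ?_
  · by_cases h : ∀ x ∈ e, x.isLeft
    · exact Or.inl (if_pos h)
    · have a : #(U e) ≤ #(univ.biUnion T) := card_le_card fun g hg =>
        (mem_filter.1 hg).2.elim fun γ h => mem_biUnion.2 ⟨_, mem_univ _, h.1⟩
      have b : #(univ.biUnion T) ≤ #(univ : Finset Z) * (n + 1) :=
        card_biUnion_le_card_mul _ _ _ fun c _ => (t1 c).1.le
      rw [card_univ, hZ] at b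
      have c : n * (n + 1) ≤ (n + 1) ^ 2 := by nlinarith
      have := q3 e
      simp only [Q, if_neg h]
      omega
  · rintro (k | k) (l | _ | j) h
    · simp [q2]
    · have a : U s(.inl k, .inr none) = univ.biUnion fun c => T c \ B c := by
        ext g
        simp only [U, W, mem_filter, mem_univ, true_and, mem_biUnion, mem_sdiff, Prod.exists]
        constructor
        · rintro ⟨k', j, a, ⟨-, h⟩ | ⟨h, -⟩⟩
          · simp at h
          · exact ⟨_, a, fun b => h ⟨_, b⟩⟩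
        · rintro ⟨c, a, b⟩
          exact ⟨k, c - κ k, by simpa using a, Or.inr ⟨fun h => b ((b3 c g a).1 h), Or.inl rfl⟩⟩
      have b : #(U s(.inl k, .inr none)) = n * (n + 1 - ρ) := by
        rw [a, card_biUnion fun c _ c' _ e => disjoint_left.2 fun g x y =>
          e (t2 _ _ g (mem_sdiff.1 x).1 (mem_sdiff.1 y).1),
          sum_congr rfl fun c _ => by rw [card_sdiff_of_subset (b1 c), (t1 c).1, b2]]
        simp [hZ]
      have c := q3 s(.inl k, .inr none)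
      rw [q1 _ _ (Or.inr rfl)]
      obtain ⟨σ, e⟩ : ∃ σ, n + 1 = ρ + σ := ⟨n + 1 - ρ, by omega⟩
      rw [b, show n + 1 - ρ = σ by omega] at c
      refine (Nat.dvd_add_left (Dvd.intro σ rfl)).1 ⟨2 ^ (n + 1) / (n + 1) + 1, ?_⟩
      rw [mul_add, add_mul n 1 σ]
      omega
    · have a : U s(.inl k, .inr (some j)) = B (κ k + j) := by
        ext g
        simp only [U, W, mem_filter, mem_univ, true_and, Prod.exists]
        constructor
        · rintro ⟨k', j', a, ⟨b, h⟩ | ⟨-, h⟩⟩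
          · obtain ⟨rfl, rfl⟩ : k = k' ∧ j = j' := by simpa using h
            exact (b3 _ g a).1 b
          · simp at h
        · exact fun h => ⟨k, j, b1 _ h, Or.inl ⟨⟨_, h⟩, Or.inl rfl⟩⟩
      have c := q3 s(.inl k, .inr (some j))
      rw [q1 _ _ (Or.inr rfl)]
      rw [a, b2] at c
      exact ⟨2 ^ (n + 1) / (n + 1), by rw [a]; omega⟩
    all_goals simp at h
  · rintro (k | a) h
    · simp at h
    have c1 := (counts d1).1 (.inr a, 0)
    have c2 : #{v : (K ⊕ Option Z) × G | ∃ γ, W γ s(.inr a, v.1) (0 + v.2)} =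
        ∑ b ∈ univ.erase (.inr a), #(U s(.inr a, b)) := by
      rw [card_eq_sum_card_fiberwise (f := Prod.fst) (t := univ.erase (.inr a)) fun v hv =>
        mem_erase.2 ⟨(mem_filter.1 hv).2.elim fun γ h => (w1 _ _ _ _ h).1.symm, mem_univ _⟩]
      refine sum_congr rfl fun b _ => card_bij (fun v _ => v.2) ?_ ?_ ?_
      · rintro ⟨x, g⟩ hv
        obtain ⟨v1, rfl⟩ := mem_filter.1 hv
        simpa [U] using v1
      · intro v hv w hw e
        exact Prod.ext ((mem_filter.1 hv).2.trans (mem_filter.1 hw).2.symm) e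
      · exact fun g hg => ⟨(b, g), by simpa [U] using hg, rfl⟩
    have c3 : ∑ b ∈ univ.erase (.inr a), #(Q s(.inr a, b)) +
        ∑ b ∈ univ.erase (.inr a), #(U s(.inr a, b)) = (Fintype.card K + n) * 2 ^ (n + 1) := by
      rw [← sum_add_distrib, sum_congr rfl fun b _ => by rw [q1 _ _ (Or.inl rfl), q3], sum_const,
        card_erase_of_mem (mem_univ _), card_univ, hI]
      rfl
    rw [c2] at c1
    refine (Nat.dvd_add_left c1).1 ?_
    have c4 : 1 ≤ 2 ^ (n + 1) := Nat.one_le_two_pow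
    have c5 : 1 ≡ (Fintype.card K + (n + 1)) * 2 ^ (n + 1) [MOD n + 1] := by
      rw [add_mul]
      exact (hK.add (Nat.modEq_zero_iff_dvd.2 (Dvd.intro _ rfl))).symm
    have c6 := (Nat.modEq_iff_dvd' (Nat.mul_pos (by omega) c4)).1 c5
    rw [← add_assoc, add_one_mul] at c6
    rwa [add_assoc, c3, show ∀ x, 2 ^ (n + 1) - 1 + x = x + 2 ^ (n + 1) - 1 by omega]
  · rintro ⟨x, g⟩ ⟨y, g'⟩ ⟨γ, h⟩ (⟨-, h'⟩ | ⟨h', -⟩)
    · rw [q1 _ _ (w1 _ _ _ _ h).2] at h'
      exact (mem_sdiff.1 h').2 (mem_filter.2 ⟨mem_univ _, γ, h⟩)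
    · exact (w1 _ _ _ _ h).1 h'
  · rintro ⟨x, g⟩ ⟨y, g'⟩
    constructor
    · rintro (⟨γ, h⟩ | ⟨h, h'⟩ | ⟨h, h1, h2⟩)
      · exact ⟨fun e => (w1 _ _ _ _ h).1 (congrArg Prod.fst e), (w1 _ _ _ _ h).2⟩
      · refine ⟨fun e => h (congrArg Prod.fst e), ?_⟩
        cases x <;> cases y <;> simp [q2] at h' ⊢
      · refine ⟨fun e => h2 (congrArg Prod.snd e), Or.inl ?_⟩
        cases x <;> simp at h1 ⊢
    · rintro ⟨h, h'⟩
      by_cases e : x = y
      · subst e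
        refine Or.inr (Or.inr ⟨rfl, ?_, fun e => h (congrArg _ e)⟩)
        cases x <;> simp at h' ⊢
      · by_cases c : g + g' ∈ U s(x, y)
        · exact Or.inl (mem_filter.1 c).2
        · exact Or.inr (Or.inl ⟨e, by rw [q1 _ _ h']; exact mem_sdiff.2 ⟨mem_univ _, c⟩⟩)

end

theorem even_large {n m : ℕ} (hn : 8 ≤ n) (h1 : m ≡ 1 [MOD n + 1]) (h2 : 2 ^ (n + 1) ∣ m) :
    Dec (n + 1) fun u v : Fin m => u ≠ v := by
  obtain ⟨t, rfl⟩ := h2
  have : NeZero n := ⟨by omega⟩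
  have : NeZero ((n + 1) * 2 ^ n) := ⟨by positivity⟩
  have ht := Nat.mod_lt t (show 0 < n + 1 by omega)
  have hK : t % (n + 1) * 2 ^ (n + 1) ≡ 1 [MOD n + 1] :=
    ((Nat.mod_modEq t _).mul_right _).trans (mul_comm t _ ▸ h1)
  have ht' := Nat.div_add_mod t (n + 1)
  generalize t % (n + 1) = k at ht hK ht'
  have hG : Fintype.card (Fin (n + 1) → ZMod 2) = 2 ^ (n + 1) := by simp
  obtain ⟨κ⟩ : Nonempty (Fin k ↪ ZMod n) :=
    Function.Embedding.nonempty_of_card_le (by rw [Fintype.card_fin, ZMod.card]; omega)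
  have o1 : ∀ a : ℕ, 0 < a → a ≤ 2 → (a : ZMod n) ≠ 0 := fun a a1 a2 e => by
    have := Nat.le_of_dvd a1 ((ZMod.natCast_eq_zero_iff a n).1 e)
    omega
  have a1 := hole hn hG (ZMod.card n) 1 (by simpa using o1 1 (by omega) (by omega))
    (by rw [one_add_one_eq_two]; exact_mod_cast o1 2 (by omega) le_rfl) κ (by simpa using hK)
  have a2 : Dec (n + 1) (holeRel (H := Fin k × (Fin (n + 1) → ZMod 2))
      (N := Bool × ZMod ((n + 1) * 2 ^ n))) := by
    refine hole_of_card (a1.equiv (Equiv.sumProdDistrib _ _ _) ?_) (by simp; ring)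
    rintro ⟨x | x, g⟩ ⟨y | y, g'⟩ <;> simp [holeRel]
  have a3 := repair hn hG (I := Fin k) (by simp; omega) (fun _ => False) (fun _ => univ)
    (fun _ => Or.inr (by rw [card_univ, hG]; omega)) (fun _ _ h => h.elim) fun a _ => by
      have c4 : 1 ≤ 2 ^ (n + 1) := Nat.one_le_two_pow
      obtain ⟨k, rfl⟩ : ∃ l, k = l + 1 := ⟨k - 1, by have := a.2; omega⟩
      have c6 := (Nat.modEq_iff_dvd' (Nat.mul_pos (by omega) c4)).1 hK.symm
      rw [add_one_mul] at c6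
      rw [sum_const, card_erase_of_mem (mem_univ _), card_univ, card_univ, hG, Fintype.card_fin]
      rwa [show ∀ x, 2 ^ (n + 1) - 1 + x = x + 2 ^ (n + 1) - 1 by omega]
  have a4 : Dec (n + 1) fun u v : Fin k × (Fin (n + 1) → ZMod 2) => u ≠ v := a3.congr (by
    rintro ⟨x, g⟩ ⟨y, g'⟩
    simp only [mem_univ, ne_eq, Prod.mk.injEq]
    tauto)
  refine dec_ne_of_card (extend_iter (dec_bip_base n) a2 0 (dec_ne_of_card a4 (by simp))
    (t / (n + 1))) ?_
  generalize t / (n + 1) = r at ht'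
  subst ht'
  simp
  ring

theorem dim_one {m : ℕ} (hm : 0 < m) : Dec 1 fun u v : Fin m => u ≠ v := by
  have : NeZero m := ⟨by omega⟩
  have h := master (d := 1) (k := m) (G := Fin 0 → ZMod 2) univ ∅ (fun _ => ∅)
    (fun _ => Subset.rfl) (fun _ _ _ => disjoint_empty_left _)
    (fun _ => cayDec_crude 0 1 _ (by rw [card_pair]; simp) (zero_notMem_pair _ _ (by simp)) (by simp))
    fun _ => cayDec_crude 0 0 _ (by simp) (by simp) (by simp)
  refine dec_ne_of_card (h.congr ?_) (by simp)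
  rintro ⟨x, g⟩ ⟨y, g'⟩
  obtain rfl := Subsingleton.elim g g'
  simp only [mem_univ, notMem_empty, ne_eq, Prod.mk.injEq]
  tauto

theorem out {d m : ℕ} (h : Dec d fun u v : Fin m => u ≠ v) :
    ∃ k : ℕ, ∃ φ : Fin k → Cube d → Fin m, (∀ i, Function.Injective (φ i)) ∧
      ∀ u v : Fin m, u ≠ v → ∃! i : Fin k, Covers (φ i) u v := by
  obtain ⟨ι, hι, φ, h1, -, h3⟩ := h
  obtain ⟨k, ⟨e⟩⟩ := Finite.exists_equiv_fin ι
  refine ⟨k, fun i => φ (e.symm i), fun i => h1 _, fun u v huv => ?_⟩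
  obtain ⟨i, hi, hu⟩ := h3 u v huv
  exact ⟨e i, by simpa using hi, fun j hj => by rw [← hu _ hj]; simp⟩

theorem main (d : ℕ) (hd : 0 < d) (m : ℕ) (hm : 0 < m) :
    (∃ k : ℕ, ∃ φ : Fin k → Cube d → Fin m, (∀ i, Function.Injective (φ i)) ∧
      ∀ u v : Fin m, u ≠ v → ∃! i : Fin k, Covers (φ i) u v) ↔
    (m ≡ 1 [MOD d * 2 ^ d] ∨ (m ≡ 1 [MOD d] ∧ m ≡ 0 [MOD 2 ^ d])) := by
  constructor
  · rintro ⟨k, φ, h1, h2⟩
    have h : Dec d fun u v : Fin m => u ≠ v := ⟨Fin k, inferInstance, φ, h1, by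
      rintro i _ _ ⟨x, y, h, rfl, rfl⟩ e
      rw [h1 i e] at h
      simp at h, h2⟩
    obtain ⟨c1, c2⟩ := counts h
    simp only [filter_ne, card_erase_of_mem (mem_univ _), card_univ, Fintype.card_fin, sum_const,
      smul_eq_mul] at c1 c2
    have c3 := c1 ⟨0, hm⟩
    have hmm : Nat.Coprime m (m - 1) := by
      obtain ⟨n, rfl⟩ : ∃ n, m = n + 1 := ⟨m - 1, by omega⟩
      simp
    rcases Nat.even_or_odd m with he | ho
    · exact Or.inr ⟨((Nat.modEq_iff_dvd' hm).2 c3).symm, Nat.modEq_zero_iff_dvd.2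
        ((Nat.Coprime.pow_left _ (hmm.coprime_dvd_left he.two_dvd)).dvd_of_dvd_mul_right
          ((Dvd.intro_left _ rfl).trans c2))⟩
    · exact Or.inl ((Nat.modEq_iff_dvd' hm).2 (((hmm.symm.coprime_dvd_left c3).mul_left
        (Nat.Coprime.pow_left _ (Nat.coprime_two_left.2 ho))).dvd_of_dvd_mul_left c2)).symm
  · obtain ⟨n, rfl⟩ : ∃ n, d = n + 1 := ⟨d - 1, by omega⟩
    rintro (h | ⟨h1, h2⟩)
    · obtain ⟨r, hr⟩ := (Nat.modEq_iff_dvd' hm).1 h.symm
      obtain rfl : m = 1 + r * ((n + 1) * 2 ^ (n + 1)) := by rw [mul_comm r, ← hr]; omega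
      exact out (dec_odd_case n r)
    · by_cases hn : 8 ≤ n
      · exact out (even_large hn h1 (Nat.modEq_zero_iff_dvd.1 h2))
      · have p : ∀ d, d = 3 ∨ d = 5 ∨ d = 7 → d.Prime ∧ 2 < d := by
          rintro _ (rfl | rfl | rfl) <;> norm_num
        unfold Nat.ModEq at h1 h2
        have hn' : n < 8 := not_le.1 hn
        interval_cases n
        · exact out (dim_one hm)
        all_goals first
          | omega
          | exact (main_theorem _ (p _ (by omega)).1 (p _ (by omega)).2 m hm).2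
              (Or.inr (by unfold Nat.ModEq; omega))

end Pool.Agent.MP_6c8b06_co.All
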