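import Pool.Agent.MP_6c8b06_co.Basic

set_option autoImplicit false

namespace Pool.Agent.MP_6c8b06_co

theorem flip_zero_cons {n : ℕ} (b : Bool) (x : Cube n) :
    flip (0 : Fin (n + 1)) (Fin.cons b x : Cube (n + 1)) = Fin.cons (!b) x := by
  funext j
  refine Fin.cases ?_ (fun l => ?_) j
  · rw [flip_apply_self]; simp
  · rw [flip_apply_ne (Fin.succ_ne_zero l)]; simp

theorem flip_succ_cons {n : ℕ} (b : Bool) (x : Cube n) (i : Fin n) :
    flip i.succ (Fin.cons b x : Cube (n + 1)) = Fin.cons b (flip i x) := by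
  funext j
  refine Fin.cases ?_ (fun l => ?_) j
  · rw [flip_apply_ne (Fin.succ_ne_zero i).symm]; simp
  · by_cases h : l = i
    · subst h
      rw [flip_apply_self]; simp [flip_apply_self]
    · rw [flip_apply_ne (fun e => h (Fin.succ_injective _ e))]
      simp [flip_apply_ne h]

/-- The inductive invariant: an alpha-labelling of the `(n+1)`-cube whose edges in direction `0`
carry the middle differences. -/
def AlphaInv (n lam N : ℕ) (L : Cube (n + 1) → ℕ) (par : Cube (n + 1) → Bool) : Prop :=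
  Function.Injective L ∧ (∀ i x, par (flip i x) = !par x) ∧
    (∀ x, par x = false → L x ≤ lam) ∧
    (∀ x, par x = true → lam < L x ∧ L x ≤ 2 * lam + N) ∧
    (∀ δ, 1 ≤ δ → δ ≤ 2 * lam + N → ∃ x i, L (flip i x) = L x + δ) ∧
    (∀ δ, lam < δ → δ ≤ lam + N → ∃ x, L (flip 0 x) = L x + δ)

theorem alphaInv_zero :
    AlphaInv 0 0 1 (fun x => if x 0 then 1 else 0) (fun x => x 0) := by
  refine ⟨?_, ?_, ?_, ?_, ?_, ?_⟩
  · intro x y h
    funext j
    have hj : j = 0 := Fin.ext (by omega)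
    subst hj
    cases hx : x 0 <;> cases hy : y 0 <;> simp_all
  · intro i x
    have hi : i = 0 := Fin.ext (by omega)
    subst hi
    exact flip_apply_self _ _
  · intro x hx
    simp_all
  · intro x hx
    simp_all
  · intro δ h1 h2
    refine ⟨fun _ => false, 0, ?_⟩
    simp [flip_apply_self]
    omega
  · intro δ h1 h2
    refine ⟨fun _ => false, ?_⟩
    simp [flip_apply_self]
    omega

theorem alphaInv_succ {n lam N : ℕ} (hN : 1 ≤ N) {L : Cube (n + 1) → ℕ}
    {par : Cube (n + 1) → Bool} (h : AlphaInv n lam N L par) :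
    ∃ (L' : Cube (n + 2) → ℕ) (par' : Cube (n + 2) → Bool),
      AlphaInv (n + 1) (2 * lam + N) (2 * N) L' par' := by
  obtain ⟨hinj, hpar, hev, hod, hall, hmid⟩ := h
  let L' : Cube (n + 2) → ℕ := fun z =>
    if z 0 then L (flip 0 (Fin.tail z)) + (lam + N)
    else L (Fin.tail z) + (if par (Fin.tail z) then 2 * lam + 3 * N else 0)
  let par' : Cube (n + 2) → Bool := fun z => xor (z 0) (par (Fin.tail z))
  have hLt : ∀ x : Cube (n + 1), L' (Fin.cons true x) = L (flip 0 x) + (lam + N) := by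
    intro x; simp [L']
  have hLf : ∀ x : Cube (n + 1), L' (Fin.cons false x) =
      L x + (if par x then 2 * lam + 3 * N else 0) := by
    intro x; simp [L']
  have hp : ∀ (b : Bool) (x : Cube (n + 1)), par' (Fin.cons b x) = xor b (par x) := by
    intro b x; simp [par']
  have hcases : ∀ z : Cube (n + 2), ∃ (b : Bool) (x : Cube (n + 1)), z = Fin.cons b x :=
    fun z => ⟨z 0, Fin.tail z, (Fin.cons_self_tail z).symm⟩
  have hup : ∀ x i δ, 1 ≤ δ → L (flip i x) = L x + δ → par x = false := by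
    intro x i δ h1 h2
    by_contra hx
    have hx' : par x = true := by simpa using hx
    have h3 := hev (flip i x) (by rw [hpar, hx']; rfl)
    have h4 := hod x hx'
    omega
  have hmid' : ∀ δ, 2 * lam + N < δ → δ ≤ 2 * lam + N + 2 * N →
      ∃ x, L' (flip 0 x) = L' x + δ := by
    intro δ h1 h2
    by_cases hc : δ ≤ 2 * lam + 2 * N
    · obtain ⟨x, hx⟩ := hmid (δ - (lam + N)) (by omega) (by omega)
      have hpx := hup x 0 _ (by omega) hx
      refine ⟨Fin.cons false x, ?_⟩
      rw [flip_zero_cons, Bool.not_false, hLt, hLf, hpx, hx]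
      simp only [Bool.false_eq_true, if_false]
      omega
    · obtain ⟨x, hx⟩ := hmid (δ - (lam + 2 * N)) (by omega) (by omega)
      have hpx := hup x 0 _ (by omega) hx
      refine ⟨Fin.cons true (flip 0 x), ?_⟩
      rw [flip_zero_cons, Bool.not_true, hLt, hLf, hpar, hpx, flip_flip, hx]
      simp only [Bool.not_false, if_true]
      omega
  have hr : ∀ x, (par x = false ∧ L x ≤ lam ∧ lam < L (flip 0 x) ∧ L (flip 0 x) ≤ 2 * lam + N) ∨
      (par x = true ∧ lam < L x ∧ L x ≤ 2 * lam + N ∧ L (flip 0 x) ≤ lam) := by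
    intro x
    cases hx : par x
    · have := hod (flip 0 x) (by rw [hpar, hx]; rfl)
      exact Or.inl ⟨rfl, hev x hx, this.1, this.2⟩
    · have := hod x hx
      exact Or.inr ⟨rfl, this.1, this.2, hev (flip 0 x) (by rw [hpar, hx]; rfl)⟩
  refine ⟨L', par', ?_, ?_, ?_, ?_, ?_, hmid'⟩
  · intro z w hzw
    obtain ⟨b, x, rfl⟩ := hcases z
    obtain ⟨c, y, rfl⟩ := hcases w
    cases b <;> cases c
    · rw [hLf, hLf] at hzw
      have : L x = L y := by
        rcases hr x with ⟨hx, e1⟩ | ⟨hx, e1⟩ <;> rcases hr y with ⟨hy, e2⟩ | ⟨hy, e2⟩ <;>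
          rw [hx, hy] at hzw <;> simp only [Bool.false_eq_true, if_false, if_true] at hzw <;> omega
      rw [hinj this]
    · rw [hLf, hLt] at hzw
      exfalso
      rcases hr x with ⟨hx, e1⟩ | ⟨hx, e1⟩ <;> rcases hr y with ⟨hy, e2⟩ | ⟨hy, e2⟩ <;>
          rw [hx] at hzw <;> simp only [Bool.false_eq_true, if_false, if_true] at hzw <;> omega
    · rw [hLf, hLt] at hzw
      exfalso
      rcases hr x with ⟨hx, e1⟩ | ⟨hx, e1⟩ <;> rcases hr y with ⟨hy, e2⟩ | ⟨hy, e2⟩ <;>
          rw [hy] at hzw <;> simp only [Bool.false_eq_true, if_false, if_true] at hzw <;> omega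
    · rw [hLt, hLt] at hzw
      have h1 : L (flip 0 x) = L (flip 0 y) := by omega
      have h2 := hinj h1
      have h3 : x = y := by rw [← flip_flip 0 x, h2, flip_flip]
      rw [h3]
  · intro i z
    obtain ⟨b, x, rfl⟩ := hcases z
    refine Fin.cases ?_ (fun l => ?_) i
    · rw [flip_zero_cons, hp, hp]
      cases b <;> cases par x <;> rfl
    · rw [flip_succ_cons, hp, hp, hpar]
      cases b <;> cases par x <;> rfl
  · intro z hz
    obtain ⟨b, x, rfl⟩ := hcases z
    rw [hp] at hz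
    cases b
    · rw [hLf]
      rcases hr x with ⟨hx, e1⟩ | ⟨hx, e1⟩
      · rw [hx]; simp only [Bool.false_eq_true, if_false]; omega
      · rw [hx] at hz; simp at hz
    · rw [hLt]
      rcases hr x with ⟨hx, e1⟩ | ⟨hx, e1⟩
      · rw [hx] at hz; simp at hz
      · omega
  · intro z hz
    obtain ⟨b, x, rfl⟩ := hcases z
    rw [hp] at hz
    cases b
    · rw [hLf]
      rcases hr x with ⟨hx, e1⟩ | ⟨hx, e1⟩
      · rw [hx] at hz; simp at hz
      · rw [hx]; simp only [if_true]; omega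
    · rw [hLt]
      rcases hr x with ⟨hx, e1⟩ | ⟨hx, e1⟩
      · omega
      · rw [hx] at hz; simp at hz
  · intro δ h1 h2
    by_cases hc : δ ≤ 2 * lam + N
    · obtain ⟨x, i, hx⟩ := hall δ h1 hc
      refine ⟨Fin.cons true (flip 0 x), i.succ, ?_⟩
      rw [flip_succ_cons, hLt, hLt, flip_flip, flip_comm, flip_flip, hx]
      omega
    · by_cases hc2 : δ ≤ 2 * lam + N + 2 * N
      · obtain ⟨x, hx⟩ := hmid' δ (by omega) hc2
        exact ⟨x, 0, hx⟩
      · obtain ⟨x, i, hx⟩ := hall (δ - (2 * lam + 3 * N)) (by omega) (by omega)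
        have hpx := hup x i _ (by omega) hx
        refine ⟨Fin.cons false x, i.succ, ?_⟩
        rw [flip_succ_cons, hLf, hLf, hpar, hpx, hx]
        simp only [Bool.not_false, if_true, Bool.false_eq_true, if_false]
        omega

theorem alphaInv_exists (n : ℕ) :
    ∃ (lam : ℕ) (L : Cube (n + 1) → ℕ) (par : Cube (n + 1) → Bool),
      2 * lam = n * 2 ^ n ∧ AlphaInv n lam (2 ^ n) L par := by
  induction n with
  | zero => exact ⟨0, _, _, by simp, alphaInv_zero⟩
  | succ n ih =>
    obtain ⟨lam, L, par, h1, h2⟩ := ih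
    obtain ⟨L', par', h3⟩ := alphaInv_succ Nat.one_le_two_pow h2
    refine ⟨2 * lam + 2 ^ n, L', par', ?_, ?_⟩
    · rw [h1]; ring
    · rw [pow_succ, mul_comm (2 ^ n) 2]; exact h3

/-- An alpha-labelling of the `(n+1)`-cube, which has `e = (n+1) 2^n` edges. -/
theorem alpha_labelling (n : ℕ) :
    ∃ (lam : ℕ) (L : Cube (n + 1) → ℕ) (par : Cube (n + 1) → Bool),
      Function.Injective L ∧ (∀ i x, par (flip i x) = !par x) ∧
      (∀ x, par x = false → L x ≤ lam) ∧
      (∀ x, par x = true → lam < L x ∧ L x ≤ (n + 1) * 2 ^ n) ∧ lam < (n + 1) * 2 ^ n ∧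
      (∀ δ, 1 ≤ δ → δ ≤ (n + 1) * 2 ^ n →
        ∃! p : Cube (n + 1) × Fin (n + 1), L (flip p.2 p.1) = L p.1 + δ) := by
  obtain ⟨lam, L, par, h1, hinj, hpar, hev, hod, hall, -⟩ := alphaInv_exists n
  have he : 2 * lam + 2 ^ n = (n + 1) * 2 ^ n := by rw [h1]; ring
  have hpos : 1 ≤ 2 ^ n := Nat.one_le_two_pow
  rw [he] at hod hall
  refine ⟨lam, L, par, hinj, hpar, hev, hod, by omega, ?_⟩
  set e := (n + 1) * 2 ^ n with he'
  let Δ : Cube (n + 1) × Fin (n + 1) → ℤ := fun p => (L (flip p.2 p.1) : ℤ) - L p.1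
  let T : Finset ℤ := (Finset.Icc (-(e : ℤ)) e).erase 0
  have hT : T.card = 2 * e := by
    rw [Finset.card_erase_of_mem (by simp), Int.card_Icc]
    omega
  have hsurj : Set.SurjOn Δ (Finset.univ : Finset (Cube (n + 1) × Fin (n + 1))) T := by
    intro t ht
    simp only [T, Finset.coe_erase, Finset.coe_Icc, Set.mem_sdiff, Set.mem_Icc,
      Set.mem_singleton_iff] at ht
    by_cases hs : 0 < t
    · obtain ⟨x, i, hx⟩ := hall t.toNat (by omega) (by omega)
      refine ⟨(x, i), by simp, ?_⟩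
      simp only [Δ, hx]
      omega
    · obtain ⟨x, i, hx⟩ := hall (-t).toNat (by omega) (by omega)
      refine ⟨(flip i x, i), by simp, ?_⟩
      simp only [Δ, flip_flip, hx]
      omega
  have hle : ∀ x, L x ≤ e := by
    intro x
    cases hx : par x
    · have := hev x hx; omega
    · exact (hod x hx).2
  have hmaps : Set.MapsTo Δ (Finset.univ : Finset (Cube (n + 1) × Fin (n + 1))) T := by
    intro p _
    simp only [T, Finset.coe_erase, Finset.coe_Icc, Set.mem_sdiff, Set.mem_Icc,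
      Set.mem_singleton_iff, Δ]
    have a1 := hle p.1
    have a2 := hle (flip p.2 p.1)
    have a3 : L (flip p.2 p.1) ≠ L p.1 := fun h => flip_ne _ _ (hinj h)
    omega
  have hinjΔ : Set.InjOn Δ (Finset.univ : Finset (Cube (n + 1) × Fin (n + 1))) := by
    apply Finset.injOn_of_surjOn_of_card_le Δ hmaps hsurj
    rw [hT, he']
    simp [pow_succ]
    ring_nf
    rfl
  intro δ hδ1 hδ2
  obtain ⟨x, i, hx⟩ := hall δ hδ1 hδ2
  refine ⟨(x, i), hx, ?_⟩
  intro p hp
  apply hinjΔ (by simp) (by simp)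
  simp only [Δ, hp, hx]
  omega

end Pool.Agent.MP_6c8b06_co
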