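import Pool.Agent.MP_6c8b06_co.Alpha

set_option autoImplicit false

namespace Pool.Agent.MP_6c8b06_co

theorem natCast_eq_of_abs_lt {m a b : ℕ} (h : (a : ZMod m) = (b : ZMod m))
    (h2 : |(b : ℤ) - a| < m) : a = b :=
  Nat.ModEq.eq_of_abs_lt ((ZMod.natCast_eq_natCast_iff a b m).mp h) h2

theorem dec_complete_odd (n : ℕ) :
    Dec (n + 1) (fun u v : ZMod (2 * ((n + 1) * 2 ^ n) + 1) => u ≠ v) := by
  obtain ⟨lam, L, par, hinj, hpar, hev, hod, hlam, huniq⟩ := alpha_labelling n
  set e := (n + 1) * 2 ^ n with he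
  have hle : ∀ x, L x ≤ e := by
    intro x
    cases hx : par x
    · have := hev x hx; omega
    · exact (hod x hx).2
  let φ : ZMod (2 * e + 1) → Cube (n + 1) → ZMod (2 * e + 1) := fun c x => c + (L x : ℕ)
  have hφ : ∀ c, Function.Injective (φ c) := by
    intro c x y hxy
    have h1 : ((L x : ℕ) : ZMod (2 * e + 1)) = (L y : ℕ) := add_left_cancel hxy
    have a1 := hle x
    have a2 := hle y
    exact hinj (natCast_eq_of_abs_lt h1 (by rw [abs_lt]; push_cast; omega))
  have key : ∀ (u v : ZMod (2 * e + 1)) (δ : ℕ), 1 ≤ δ → δ ≤ e → v = u + δ →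
      ∃! c, Covers (φ c) u v := by
    intro u v δ h1 h2 hv
    obtain ⟨⟨x, i⟩, hx, hu⟩ := huniq δ h1 h2
    refine ⟨u - (L x : ℕ), (covers_iff _ _ _).mpr ⟨x, i, by simp [φ], ?_⟩, ?_⟩
    · simp only [φ]
      simp only at hx
      rw [hx, hv]
      push_cast
      ring
    · intro c hc
      obtain ⟨x', i', e1, e2⟩ := (covers_iff _ _ _).mp hc
      simp only [φ] at e1 e2
      have h3 : ((L (flip i' x') : ℕ) : ZMod (2 * e + 1)) = ((L x' + δ : ℕ) : ZMod (2 * e + 1)) := by
        push_cast
        rw [hv, ← e1] at e2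
        linear_combination e2
      have a1 := hle x'
      have a2 := hle (flip i' x')
      have h4 := natCast_eq_of_abs_lt h3 (by rw [abs_lt]; push_cast; omega)
      have h5 := hu (x', i') h4
      have h6 : x' = x := congrArg Prod.fst h5
      rw [← h6, ← e1]
      ring
  refine ⟨ZMod (2 * e + 1), inferInstance, φ, hφ, ?_, ?_⟩
  · intro c u v hc
    obtain ⟨x, i, rfl, rfl⟩ := (covers_iff _ _ _).mp hc
    exact fun h => flip_ne i x (hφ c h).symm
  · intro u v huv
    have ht : ((v - u).val : ZMod (2 * e + 1)) = v - u := ZMod.natCast_zmod_val _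
    have hlt : (v - u).val < 2 * e + 1 := ZMod.val_lt _
    have hpos : (v - u).val ≠ 0 := by
      intro h
      rw [ZMod.val_eq_zero, sub_eq_zero] at h
      exact huv h.symm
    by_cases hc : (v - u).val ≤ e
    · exact key u v _ (by omega) hc (by rw [ht]; ring)
    · have h1 : u = v + ((2 * e + 1 - (v - u).val : ℕ) : ZMod (2 * e + 1)) := by
        rw [Nat.cast_sub hlt.le, ht, ZMod.natCast_self]
        ring
      obtain ⟨c, hc1, hc2⟩ := key v u _ (by omega) (by omega) h1
      exact ⟨c, hc1.symm, fun c' hc' => hc2 c' hc'.symm⟩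

theorem dec_bip_base (n : ℕ) :
    Dec (n + 1) (fun u v : ZMod ((n + 1) * 2 ^ n) × Bool => u.2 ≠ v.2) := by
  obtain ⟨lam, L, par, hinj, hpar, hev, hod, hlam, huniq⟩ := alpha_labelling n
  set e := (n + 1) * 2 ^ n with he
  have : NeZero e := ⟨by omega⟩
  let φ : ZMod e → Cube (n + 1) → ZMod e × Bool := fun c x => (c + (L x : ℕ), par x)
  have hφ : ∀ c, Function.Injective (φ c) := by
    intro c x y hxy
    have h0 : par x = par y := congrArg Prod.snd hxy
    have h1 : ((L x : ℕ) : ZMod e) = (L y : ℕ) := add_left_cancel (congrArg Prod.fst hxy)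
    apply hinj
    cases hx : par x
    · have a1 := hev x hx
      have a2 := hev y (h0 ▸ hx)
      exact natCast_eq_of_abs_lt h1 (by rw [abs_lt]; omega)
    · have a1 := hod x hx
      have a2 := hod y (h0 ▸ hx)
      exact natCast_eq_of_abs_lt h1 (by rw [abs_lt]; omega)
  have key : ∀ a b : ZMod e, ∃! c, Covers (φ c) (a, false) (b, true) := by
    intro a b
    obtain ⟨δ, h1, h2, hv⟩ : ∃ δ : ℕ, 1 ≤ δ ∧ δ ≤ e ∧ b = a + δ := by
      have ht : ((b - a).val : ZMod e) = b - a := ZMod.natCast_zmod_val _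
      have hlt : (b - a).val < e := ZMod.val_lt _
      by_cases h : (b - a).val = 0
      · refine ⟨e, by omega, le_rfl, ?_⟩
        rw [ZMod.val_eq_zero, sub_eq_zero] at h
        rw [ZMod.natCast_self, h, add_zero]
      · exact ⟨(b - a).val, by omega, hlt.le, by rw [ht]; ring⟩
    obtain ⟨⟨x, i⟩, hx, hu⟩ := huniq δ h1 h2
    simp only at hx
    have hpx : par x = false := by
      by_contra hc
      have hc' : par x = true := by simpa using hc
      have a1 := hod x hc'
      have a2 := hev (flip i x) (by rw [hpar, hc']; rfl)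
      omega
    refine ⟨a - (L x : ℕ), (covers_iff _ _ _).mpr ⟨x, i, by simp [φ, hpx], ?_⟩, ?_⟩
    · simp only [φ]
      rw [hx, hv, hpar, hpx]
      push_cast
      simp only [Bool.not_false, Prod.mk.injEq, and_true]
      ring
    · intro c hc
      obtain ⟨x', i', e1, e2⟩ := (covers_iff _ _ _).mp hc
      simp only [φ, Prod.mk.injEq] at e1 e2
      have h3 : ((L (flip i' x') : ℕ) : ZMod e) = ((L x' + δ : ℕ) : ZMod e) := by
        push_cast
        have e3 := e2.1
        rw [hv, ← e1.1] at e3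
        linear_combination e3
      have a1 := hev x' e1.2
      have a2 := hod (flip i' x') e2.2
      have h4 := natCast_eq_of_abs_lt h3 (by rw [abs_lt]; push_cast; omega)
      have h5 := hu (x', i') h4
      have h6 : x' = x := congrArg Prod.fst h5
      rw [← h6, ← e1.1]
      ring
  refine ⟨ZMod e, inferInstance, φ, hφ, ?_, ?_⟩
  · intro c u v hc
    obtain ⟨x, i, rfl, rfl⟩ := (covers_iff _ _ _).mp hc
    simp only [φ, hpar]
    cases par x <;> simp
  · rintro ⟨a, s⟩ ⟨b, t⟩ huv
    cases s <;> cases t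
    · exact (huv rfl).elim
    · exact key a b
    · obtain ⟨c, hc1, hc2⟩ := key b a
      exact ⟨c, hc1.symm, fun c' hc' => hc2 c' hc'.symm⟩
    · exact (huv rfl).elim

end Pool.Agent.MP_6c8b06_co
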