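import Pool.Agent.MP_6c8b06_co.Blocks
import Pool.Agent.MP_6c8b06_co.Cyclic

set_option autoImplicit false

namespace Pool.Agent.MP_6c8b06_co

theorem dec_ne_of_card {d : ℕ} {X Y : Type} [Finite X] [Finite Y]
    (h : Dec d (fun u v : X => u ≠ v)) (hc : Nat.card X = Nat.card Y) :
    Dec d (fun u v : Y => u ≠ v) := by
  obtain ⟨e⟩ := Finite.card_eq.mp hc
  exact h.equiv e (fun u v => by simp)

/-- Complete graph on `H ⊕ N` with the edges inside `H` removed. -/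
def holeRel {H N : Type} (u v : H ⊕ N) : Prop := u ≠ v ∧ (u.isRight ∨ v.isRight)

theorem hole_of_card {d : ℕ} {H N N' : Type} [Finite N] [Finite N']
    (h : Dec d (holeRel (H := H) (N := N))) (hc : Nat.card N = Nat.card N') :
    Dec d (holeRel (H := H) (N := N')) := by
  obtain ⟨e⟩ := Finite.card_eq.mp hc
  refine h.equiv (Equiv.sumCongr (Equiv.refl H) e) ?_
  rintro (u | u) (v | v) <;> simp [holeRel]

theorem hole_unit {d : ℕ} {N : Type} (h : Dec d (fun u v : Unit ⊕ N => u ≠ v)) :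
    Dec d (holeRel (H := Unit) (N := N)) := by
  refine h.congr ?_
  rintro (u | u) (v | v) <;> simp [holeRel]

theorem hole_of_blocks {d k : ℕ} {W : Type} (hk : 2 * k = d + 1)
    (h1 : Dec d (fun a b : Fin k × (W × ZMod 2) => a.1 ≠ b.1 ∨ a.2.2 ≠ b.2.2))
    (h2 : Dec d (fun a b : Fin d × (W × ZMod 2) =>
      (a.1 ≠ b.1 ∧ a.2.2 ≠ b.2.2) ∨ (a.1 = b.1 ∧ a.2 ≠ b.2))) :
    Dec d (holeRel (H := W) (N := Fin d × (W × ZMod 2))) := by
  obtain ⟨e⟩ : Nonempty (Fin k × ZMod 2 ≃ Option (Fin d)) :=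
    Finite.card_eq.mp (by simp; omega)
  have h3 : Dec d (fun a b : Option (Fin d) × W => a.1 ≠ b.1) := by
    let e' : Fin k × (W × ZMod 2) ≃ Option (Fin d) × W :=
      { toFun := fun a => (e (a.1, a.2.2), a.2.1)
        invFun := fun b => ((e.symm b.1).1, (b.2, (e.symm b.1).2))
        left_inv := fun a => by simp
        right_inv := fun b => by simp }
    refine h1.equiv e' ?_
    intro u v
    simp only [e', Equiv.coe_fn_mk, ne_eq, EmbeddingLike.apply_eq_iff_eq, Prod.mk.injEq]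
    tauto
  let f : ZMod 2 → Option (Fin d) × W → W ⊕ (Fin d × (W × ZMod 2)) := fun s a =>
    match a.1 with
    | none => Sum.inl a.2
    | some i => Sum.inr (i, (a.2, s))
  have hf : ∀ s, Function.Injective (f s) := by
    rintro s ⟨_ | i, x⟩ ⟨_ | j, y⟩ h <;> simp [f] at h ⊢ <;> tauto
  let S : W ⊕ (Fin d × (W × ZMod 2)) → W ⊕ (Fin d × (W × ZMod 2)) → Prop := fun u v =>
    match u, v with
    | Sum.inl _, Sum.inl _ => False
    | Sum.inr a, Sum.inr b => a.1 ≠ b.1 ∧ a.2.2 = b.2.2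
    | _, _ => True
  have h4 : Dec d S := by
    refine Dec.glue (J := ZMod 2) _ S (fun s => h3.map (f s) (hf s)) ?_ ?_
    · rintro s _ _ ⟨⟨_ | i, x⟩, ⟨_ | j, y⟩, h, rfl, rfl⟩ <;> simp [f, S] at h ⊢
      exact h
    · rintro (x | ⟨i, x, s⟩) (y | ⟨j, y, t⟩) h
      · exact h.elim
      · refine ⟨t, ⟨(none, x), (some j, y), by simp, rfl, rfl⟩, ?_⟩
        rintro t' ⟨⟨_ | i', x'⟩, ⟨_ | j', y'⟩, -, e1, e2⟩ <;> simp [f] at e1 e2
        exact e2.2.2
      · refine ⟨s, ⟨(some i, x), (none, y), by simp, rfl, rfl⟩, ?_⟩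
        rintro t' ⟨⟨_ | i', x'⟩, ⟨_ | j', y'⟩, -, e1, e2⟩ <;> simp [f] at e1 e2
        exact e1.2.2
      · simp only [S] at h
        obtain ⟨hij, rfl⟩ := h
        refine ⟨s, ⟨(some i, x), (some j, y), by simpa using hij, rfl, rfl⟩, ?_⟩
        rintro t' ⟨⟨_ | i', x'⟩, ⟨_ | j', y'⟩, -, e1, e2⟩ <;> simp [f] at e1 e2
        exact e1.2.2
  have h5 := h2.map (Sum.inr : _ → W ⊕ (Fin d × (W × ZMod 2))) Sum.inr_injective
  refine (h4.or h5 ?_).congr ?_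
  · rintro _ _ h ⟨a, b, h', rfl, rfl⟩
    simp only [S] at h
    tauto
  · rintro (x | ⟨i, x, s⟩) (y | ⟨j, y, t⟩) <;> simp [S, holeRel]
    tauto

theorem extend_step {d : ℕ} {H I E : Type} [Finite I]
    (hb : Dec d (fun u v : E × Bool => u.2 ≠ v.2))
    (hh : Dec d (holeRel (H := H) (N := Bool × E)))
    (ho : Dec d (fun u v : H ⊕ (I × E) => u ≠ v)) :
    Dec d (fun u v : H ⊕ ((I ⊕ Bool) × E) => u ≠ v) := by
  let f1 : H ⊕ (I × E) → H ⊕ ((I ⊕ Bool) × E) := Sum.map id (Prod.map Sum.inl id)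
  let f2 : H ⊕ (Bool × E) → H ⊕ ((I ⊕ Bool) × E) := Sum.map id (Prod.map Sum.inr id)
  let f3 : I × Bool → E × Bool → H ⊕ ((I ⊕ Bool) × E) := fun p z =>
    Sum.inr (if z.2 then Sum.inr p.2 else Sum.inl p.1, z.1)
  have hf1 : Function.Injective f1 := by
    rintro (x | ⟨i, x⟩) (y | ⟨j, y⟩) h <;> simp [f1] at h ⊢ <;> exact h
  have hf2 : Function.Injective f2 := by
    rintro (x | ⟨i, x⟩) (y | ⟨j, y⟩) h <;> simp [f2] at h ⊢ <;> exact h
  have hf3 : ∀ p, Function.Injective (f3 p) := by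
    rintro p ⟨x, _ | _⟩ ⟨y, _ | _⟩ h <;> simp [f3] at h ⊢ <;> exact h
  let S : H ⊕ ((I ⊕ Bool) × E) → H ⊕ ((I ⊕ Bool) × E) → Prop := fun u v =>
    match u, v with
    | Sum.inr (Sum.inl _, _), Sum.inr (Sum.inr _, _) => True
    | Sum.inr (Sum.inr _, _), Sum.inr (Sum.inl _, _) => True
    | _, _ => False
  have h3 : Dec d S := by
    refine Dec.glue (J := I × Bool) _ S (fun p => hb.map (f3 p) (hf3 p)) ?_ ?_
    · rintro p _ _ ⟨⟨x, _ | _⟩, ⟨y, _ | _⟩, h, rfl, rfl⟩ <;> simp [f3, S] at h ⊢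
    · rintro (x | ⟨i | i, x⟩) (y | ⟨j | j, y⟩) h <;> simp only [S] at h
      · refine ⟨(i, j), ⟨(x, false), (y, true), by simp, rfl, rfl⟩, ?_⟩
        rintro ⟨i', j'⟩ ⟨⟨x', _ | _⟩, ⟨y', _ | _⟩, -, e1, e2⟩ <;> simp [f3] at e1 e2
        rw [e1.1, e2.1]
      · refine ⟨(j, i), ⟨(x, true), (y, false), by simp, rfl, rfl⟩, ?_⟩
        rintro ⟨i', j'⟩ ⟨⟨x', _ | _⟩, ⟨y', _ | _⟩, -, e1, e2⟩ <;> simp [f3] at e1 e2
        rw [e1.1, e2.1]
  let S1 : H ⊕ ((I ⊕ Bool) × E) → Prop := fun u =>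
    match u with
    | Sum.inr (Sum.inr _, _) => False
    | _ => True
  let S2 : H ⊕ ((I ⊕ Bool) × E) → Prop := fun u =>
    match u with
    | Sum.inr (Sum.inl _, _) => False
    | _ => True
  have h1 : Dec d (fun u v => u ≠ v ∧ S1 u ∧ S1 v) := by
    refine (ho.map f1 hf1).congr ?_
    intro u v
    constructor
    · rintro ⟨x | ⟨i, x⟩, y | ⟨j, y⟩, h, rfl, rfl⟩ <;>
        exact ⟨fun e => h (hf1 e), trivial, trivial⟩
    · rintro ⟨h, h1, h2⟩
      have key : ∀ w, S1 w → ∃ a, f1 a = w := by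
        rintro (x | ⟨i | i, x⟩) hw
        · exact ⟨Sum.inl x, rfl⟩
        · exact ⟨Sum.inr (i, x), rfl⟩
        · exact hw.elim
      obtain ⟨a, rfl⟩ := key u h1
      obtain ⟨b, rfl⟩ := key v h2
      exact ⟨a, b, fun e => h (congrArg f1 e), rfl, rfl⟩
  have h2 : Dec d (fun u v => (u ≠ v ∧ (u.isRight ∨ v.isRight)) ∧ S2 u ∧ S2 v) := by
    refine (hh.map f2 hf2).congr ?_
    intro u v
    constructor
    · rintro ⟨x | ⟨i, x⟩, y | ⟨j, y⟩, h, rfl, rfl⟩ <;>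
        exact ⟨⟨fun e => h.1 (hf2 e), h.2⟩, trivial, trivial⟩
    · rintro ⟨h, h1, h2⟩
      have key : ∀ w, S2 w → ∃ a, f2 a = w ∧ a.isRight = w.isRight := by
        rintro (x | ⟨i | i, x⟩) hw
        · exact ⟨Sum.inl x, rfl, rfl⟩
        · exact hw.elim
        · exact ⟨Sum.inr (i, x), rfl, rfl⟩
      obtain ⟨a, rfl, ha⟩ := key u h1
      obtain ⟨b, rfl, hb⟩ := key v h2
      exact ⟨a, b, ⟨fun e => h.1 (congrArg f2 e), by rw [ha, hb]; exact h.2⟩, rfl, rfl⟩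
  refine ((h1.or h2 ?_).or h3 ?_).congr ?_
  · rintro (x | ⟨i | i, x⟩) (y | ⟨j | j, y⟩) <;> simp [S1, S2]
  · rintro (x | ⟨i | i, x⟩) (y | ⟨j | j, y⟩) <;> simp [S1, S2, S]
  · rintro (x | ⟨i | i, x⟩) (y | ⟨j | j, y⟩) <;> simp [S1, S2, S]

theorem extend_iter {d : ℕ} {H E : Type} [Finite H] [Finite E]
    (hb : Dec d (fun u v : E × Bool => u.2 ≠ v.2))
    (hh : Dec d (holeRel (H := H) (N := Bool × E))) (j : ℕ)
    (ho : Dec d (fun u v : H ⊕ (Fin j × E) => u ≠ v)) (r : ℕ) :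
    Dec d (fun u v : H ⊕ (Fin (j + 2 * r) × E) => u ≠ v) := by
  induction r with
  | zero => exact ho
  | succ r ih =>
    refine dec_ne_of_card (extend_step hb hh ih) ?_
    simp [mul_add, add_assoc]

theorem dec_odd_case (n r : ℕ) :
    Dec (n + 1) (fun u v : Fin (1 + r * ((n + 1) * 2 ^ (n + 1))) => u ≠ v) := by
  have : NeZero ((n + 1) * 2 ^ n) := ⟨by positivity⟩
  have hh : Dec (n + 1) (holeRel (H := Unit) (N := Bool × ZMod ((n + 1) * 2 ^ n))) := by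
    refine hole_unit (dec_ne_of_card (dec_complete_odd n) ?_)
    simp [add_comm]
  have ho : Dec (n + 1) (fun u v : Unit ⊕ (Fin 0 × ZMod ((n + 1) * 2 ^ n)) => u ≠ v) := by
    refine (Dec.empty _).congr ?_
    rintro (u | ⟨u, -⟩) (v | ⟨v, -⟩)
    · simp
    · exact v.elim0
    · exact u.elim0
    · exact u.elim0
  refine dec_ne_of_card (extend_iter (dec_bip_base n) hh 0 ho r) ?_
  simp
  ring

theorem two_mul_le_two_pow (h : ℕ) : 2 * h ≤ 2 ^ h := by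
  rcases h with _ | h
  · simp
  · rw [pow_succ]
    have := Nat.lt_two_pow_self (n := h)
    omega

theorem dec_even_case (s : ℕ) (hd : (2 * s + 3) ∣ 2 ^ (2 * s + 2) - 1) (r : ℕ) :
    Dec (2 * s + 3) (fun u v : Fin ((2 * s + 3 + 1) * 2 ^ (2 * s + 2) +
      r * ((2 * s + 3) * 2 ^ (2 * s + 3))) => u ≠ v) := by
  obtain ⟨t, ht0⟩ := hd
  have hpos : 1 ≤ 2 ^ (2 * s + 2) := Nat.one_le_two_pow
  have ht : 2 ^ (2 * s + 2) = t * (2 * s + 3) + 1 := by rw [mul_comm t]; omega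
  have hts : 2 * s + 1 ≤ t := by
    have a1 := two_mul_le_two_pow (s + 1)
    have a2 : 2 ^ (2 * s + 2) = 2 ^ (s + 1) * 2 ^ (s + 1) := by ring
    have a3 := Nat.mul_le_mul a1 a1
    by_contra hlt
    have a4 : t ≤ 2 * s := by omega
    nlinarith
  have : NeZero ((2 * s + 2 + 1) * 2 ^ (2 * s + 2)) := ⟨by positivity⟩
  have key : ∀ (W : Type) [AddCommGroup W] [Module (ZMod 2) W] [Fintype W] [DecidableEq W],
      Fintype.card W = 2 ^ (2 * s + 2) →
      Dec (2 * s + 3) (fun a b : Fin (2 * s + 3) × (W × ZMod 2) =>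
        (a.1 ≠ b.1 ∧ a.2.2 ≠ b.2.2) ∨ (a.1 = b.1 ∧ a.2 ≠ b.2)) →
      Dec (2 * s + 3) (fun u v : Fin ((2 * s + 3 + 1) * 2 ^ (2 * s + 2) +
        r * ((2 * s + 3) * 2 ^ (2 * s + 3))) => u ≠ v) := by
    intro W _ _ _ _ hW h2
    have h1 := hole_of_blocks (by ring) (blockC1 s t hW ht hts) h2
    have hh : Dec (2 * s + 3)
        (holeRel (H := W) (N := Bool × ZMod ((2 * s + 2 + 1) * 2 ^ (2 * s + 2)))) := by
      refine hole_of_card h1 ?_
      simp [hW]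
      ring
    have ho : Dec (2 * s + 3)
        (fun u v : W ⊕ (Fin 1 × ZMod ((2 * s + 2 + 1) * 2 ^ (2 * s + 2))) => u ≠ v) := by
      refine dec_ne_of_card (blockA s t hW ht hts) ?_
      simp [hW]
      ring
    refine dec_ne_of_card (extend_iter (dec_bip_base (2 * s + 2)) hh 1 ho r) ?_
    simp [hW]
    ring
  rcases Nat.eq_zero_or_pos s with rfl | hs
  · exact key (ZMod 2 × ZMod 2) (by decide) blockC2_three
  · exact key (Fin (2 * s + 2) → ZMod 2) (by simp) (blockC2_large s t hs (by simp) ht hts)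

end Pool.Agent.MP_6c8b06_co
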