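import Mathlib

set_option autoImplicit false

namespace Pool.Agent.MP_6c8b06_co

/-- Vertex set of the `d`-cube. -/
abbrev Cube (d : ℕ) := Fin d → Bool

/-- `u v` is the image of an edge of the cube under `φ`. -/
def Covers {d : ℕ} {X : Type} (φ : Cube d → X) (u v : X) : Prop :=
  ∃ x y : Cube d, hammingDist x y = 1 ∧ φ x = u ∧ φ y = v

/-- The graph with adjacency relation `R` is an edge-disjoint union of `d`-cubes. -/
def Dec (d : ℕ) {X : Type} (R : X → X → Prop) : Prop :=
  ∃ (ι : Type) (_ : Finite ι) (φ : ι → Cube d → X),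
    (∀ i, Function.Injective (φ i)) ∧ (∀ i u v, Covers (φ i) u v → R u v) ∧
      ∀ u v, R u v → ∃! i, Covers (φ i) u v

/-- Flip one coordinate. -/
def flip {d : ℕ} (i : Fin d) (x : Cube d) : Cube d := Function.update x i (!x i)

theorem flip_apply_self {d : ℕ} (i : Fin d) (x : Cube d) : flip i x i = !x i := by
  simp [flip]

theorem flip_apply_ne {d : ℕ} {i j : Fin d} (h : j ≠ i) (x : Cube d) : flip i x j = x j := by
  simp [flip, h]

theorem flip_flip {d : ℕ} (i : Fin d) (x : Cube d) : flip i (flip i x) = x := by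
  funext j
  by_cases h : j = i
  · subst h; simp [flip]
  · simp [flip, h]

theorem flip_comm {d : ℕ} (i j : Fin d) (x : Cube d) :
    flip i (flip j x) = flip j (flip i x) := by
  funext l
  by_cases hij : i = j
  · subst hij; rfl
  · by_cases h1 : l = i
    · subst h1
      rw [flip_apply_self, flip_apply_ne hij, flip_apply_ne hij, flip_apply_self]
    · by_cases h2 : l = j
      · subst h2
        rw [flip_apply_ne h1, flip_apply_self, flip_apply_self, flip_apply_ne h1]
      · rw [flip_apply_ne h1, flip_apply_ne h2, flip_apply_ne h2, flip_apply_ne h1]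

theorem flip_ne {d : ℕ} (i : Fin d) (x : Cube d) : flip i x ≠ x := by
  intro h
  have := congrFun h i
  rw [flip_apply_self] at this
  cases hx : x i <;> simp [hx] at this

theorem flip_inj {d : ℕ} {i j : Fin d} {x : Cube d} (h : flip i x = flip j x) : i = j := by
  by_contra hij
  have := congrFun h i
  rw [flip_apply_self, flip_apply_ne hij] at this
  cases hx : x i <;> simp [hx] at this

theorem hamming_iff {d : ℕ} (x y : Cube d) : hammingDist x y = 1 ↔ ∃ i, y = flip i x := by
  unfold hammingDist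
  rw [Finset.card_eq_one]
  constructor
  · rintro ⟨i, hi⟩
    refine ⟨i, ?_⟩
    funext j
    have hj : (x j ≠ y j) ↔ j = i := by
      have := Finset.ext_iff.mp hi j
      simpa using this
    by_cases h : j = i
    · subst h
      rw [flip_apply_self]
      have := hj.mpr rfl
      cases hx : x j <;> cases hy : y j <;> simp_all
    · rw [flip_apply_ne h]
      by_contra h'
      exact h (hj.mp (fun e => h' e.symm))
  · rintro ⟨i, rfl⟩
    refine ⟨i, ?_⟩
    ext j
    by_cases h : j = i
    · subst h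
      simp only [flip_apply_self, Finset.mem_filter, Finset.mem_univ, true_and,
        Finset.mem_singleton, iff_true]
      cases x j <;> simp
    · simp [flip_apply_ne h, h]

theorem covers_iff {d : ℕ} {X : Type} (φ : Cube d → X) (u v : X) :
    Covers φ u v ↔ ∃ x i, φ x = u ∧ φ (flip i x) = v := by
  constructor
  · rintro ⟨x, y, h, hu, hv⟩
    obtain ⟨i, rfl⟩ := (hamming_iff x y).mp h
    exact ⟨x, i, hu, hv⟩
  · rintro ⟨x, i, hu, hv⟩
    exact ⟨x, flip i x, (hamming_iff _ _).mpr ⟨i, rfl⟩, hu, hv⟩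

theorem Covers.symm {d : ℕ} {X : Type} {φ : Cube d → X} {u v : X} (h : Covers φ u v) :
    Covers φ v u := by
  obtain ⟨x, y, h, hu, hv⟩ := h
  exact ⟨y, x, by rwa [hammingDist_comm], hv, hu⟩

theorem Dec.congr {d : ℕ} {X : Type} {R S : X → X → Prop} (h : Dec d R)
    (e : ∀ u v, R u v ↔ S u v) : Dec d S := by
  have : R = S := by
    funext u v
    exact propext (e u v)
  exact this ▸ h

theorem Dec.map {d : ℕ} {X Y : Type} {R : X → X → Prop} (h : Dec d R) (f : X → Y)
    (hf : Function.Injective f) :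
    Dec d (fun a b => ∃ u v, R u v ∧ f u = a ∧ f v = b) := by
  obtain ⟨ι, hι, φ, h1, h2, h3⟩ := h
  refine ⟨ι, hι, fun i x => f (φ i x), fun i => hf.comp (h1 i), ?_, ?_⟩
  · rintro i a b ⟨x, y, hxy, rfl, rfl⟩
    exact ⟨_, _, h2 i _ _ ⟨x, y, hxy, rfl, rfl⟩, rfl, rfl⟩
  · rintro a b ⟨u, v, huv, rfl, rfl⟩
    obtain ⟨i, ⟨x, y, hxy, hx, hy⟩, hi⟩ := h3 u v huv
    refine ⟨i, ⟨x, y, hxy, by simp [hx], by simp [hy]⟩, ?_⟩
    rintro j ⟨x', y', hxy', hx', hy'⟩
    exact hi j ⟨x', y', hxy', hf hx', hf hy'⟩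

theorem Dec.equiv {d : ℕ} {X Y : Type} {R : X → X → Prop} {S : Y → Y → Prop} (h : Dec d R)
    (f : X ≃ Y) (e : ∀ u v, R u v ↔ S (f u) (f v)) : Dec d S := by
  refine (h.map f f.injective).congr ?_
  intro a b
  constructor
  · rintro ⟨u, v, huv, rfl, rfl⟩
    exact (e u v).mp huv
  · intro hab
    refine ⟨f.symm a, f.symm b, (e _ _).mpr (by simpa using hab), by simp, by simp⟩

theorem Dec.glue {d : ℕ} {X J : Type} [Finite J] (R : J → X → X → Prop) (S : X → X → Prop)
    (h : ∀ j, Dec d (R j)) (hsub : ∀ j u v, R j u v → S u v)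
    (huniq : ∀ u v, S u v → ∃! j, R j u v) : Dec d S := by
  choose ι hι φ h1 h2 h3 using h
  refine ⟨Σ j, ι j, inferInstance, fun p => φ p.1 p.2, fun p => h1 p.1 p.2, ?_, ?_⟩
  · intro p u v hc
    exact hsub p.1 u v (h2 p.1 p.2 u v hc)
  · intro u v huv
    obtain ⟨j, hj, hju⟩ := huniq u v huv
    obtain ⟨i, hi, hiu⟩ := h3 j u v hj
    refine ⟨⟨j, i⟩, hi, ?_⟩
    rintro ⟨j', i'⟩ hc
    obtain rfl : j' = j := hju j' (h2 j' i' u v hc)
    obtain rfl : i' = i := hiu i' hc
    rfl

theorem Dec.or {d : ℕ} {X : Type} {R S : X → X → Prop} (hR : Dec d R) (hS : Dec d S)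
    (hd : ∀ u v, R u v → S u v → False) : Dec d (fun u v => R u v ∨ S u v) := by
  refine Dec.glue (J := Bool) (fun b => if b then R else S) _ ?_ ?_ ?_
  · intro b
    cases b
    · simpa using hS
    · simpa using hR
  · intro b u v h
    cases b
    · exact Or.inr (by simpa using h)
    · exact Or.inl (by simpa using h)
  · intro u v h
    rcases h with h | h
    · refine ⟨true, by simpa using h, ?_⟩
      intro b hb
      cases b
      · exact (hd u v h (by simpa using hb)).elim
      · rfl
    · refine ⟨false, by simpa using h, ?_⟩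
      intro b hb
      cases b
      · rfl
      · exact (hd u v (by simpa using hb) h).elim

theorem Dec.empty (d : ℕ) {X : Type} : Dec d (fun _ _ : X => False) := by
  refine ⟨Empty, inferInstance, fun i => i.elim, fun i => i.elim, fun i => i.elim, ?_⟩
  intro u v h
  exact h.elim

end Pool.Agent.MP_6c8b06_co
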