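import Pool.Agent.MP_6c8b06_co.Master

set_option autoImplicit false
set_option linter.unusedSectionVars false

namespace Pool.Agent.MP_6c8b06_co

open Finset

theorem crude_down (c : ℕ) : ∀ M, 2 ^ M ≤ c * M + 1 → ∀ j, j + 1 ≤ M →
    2 ^ (j + 1) ≤ c * (j + 1) + 1 := by
  intro M
  induction M with
  | zero => intro _ j hj; omega
  | succ M ih =>
    intro h j hj
    rcases Nat.eq_or_lt_of_le hj with e | e
    · rw [e]; exact h
    · apply ih _ j (by omega)
      have h1 : c ≤ c * M := Nat.le_mul_of_pos_right c (by omega)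
      rw [pow_succ, mul_add] at h
      omega

theorem affine_down (c p : ℕ) (hp : p ≤ 2 * c) : ∀ M, 2 ^ M + p ≤ c * (M + 1) → ∀ j, 2 ≤ j →
    j ≤ M → 2 ^ j + p ≤ c * (j + 1) := by
  intro M
  induction M with
  | zero => intro _ j hj; omega
  | succ M ih =>
    intro h j hj2 hj
    rcases Nat.eq_or_lt_of_le hj with e | e
    · rw [e]; exact h
    · apply ih _ j hj2 (by omega)
      have h1 : c * 2 ≤ c * M := Nat.mul_le_mul_left c (by omega)
      rw [pow_succ, mul_add, mul_add] at h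
      rw [mul_add]
      omega

section Criteria

variable {G : Type} [AddCommGroup G] [Module (ZMod 2) G] [Finite G] [DecidableEq G]

theorem cayDec_crude (n c : ℕ) (S : Finset G) (hS : S.card = c * (n + 1)) (h0 : (0 : G) ∉ S)
    (h : 2 ^ n ≤ c * n + 1) : CayDec (n + 1) S :=
  cayDec_criterion (n + 1) c _ S 0 hS h0 le_rfl
    (fun j hj => Or.inl (crude_down c n h j (by omega)))

theorem cayDec_affine (m c p : ℕ) (S : Finset G) (f : G →ₗ[ZMod 2] ZMod 2)
    (hS : S.card = c * (m + 2)) (h0 : (0 : G) ∉ S)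
    (hp : (S.filter (fun g => ¬ f g = 1)).card ≤ p) (hc : 1 ≤ c) (hc2 : 2 ≤ c ∨ p = 0)
    (hpc : p ≤ 2 * c) (h : 2 ^ m + p ≤ c * (m + 1)) : CayDec (m + 2) S := by
  refine cayDec_criterion (m + 2) c p S f hS h0 hp ?_
  intro j hj
  by_cases h2 : 2 ≤ j
  · exact Or.inr (affine_down c p hpc m h j h2 (by omega))
  · have : j = 0 ∨ j = 1 := by omega
    rcases this with rfl | rfl
    · left; omega
    · omega

theorem card_pair (Q P : Finset G) :
    (Q ×ˢ ({1} : Finset (ZMod 2)) ∪ P ×ˢ {0}).card = Q.card + P.card := by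
  rw [Finset.card_union_of_disjoint]
  · simp
  · rw [Finset.disjoint_left]
    rintro ⟨g, s⟩ h1 h2
    simp only [Finset.mem_product, Finset.mem_singleton] at h1 h2
    have : (1 : ZMod 2) = 0 := h1.2.symm.trans h2.2
    revert this; decide

theorem zero_notMem_pair (Q P : Finset G) (h : (0 : G) ∉ P) :
    (0 : G × ZMod 2) ∉ Q ×ˢ ({1} : Finset (ZMod 2)) ∪ P ×ˢ {0} := by
  simp [h]

theorem add_ne_zero_iff (g g' : G) : g + g' ≠ 0 ↔ g ≠ g' := by
  constructor
  · rintro h rfl
    exact h (add_self_two g)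
  · intro h e
    apply h
    calc g = g + (g' + g') := by rw [add_self_two, add_zero]
      _ = g' := by rw [← add_assoc, e, zero_add]

end Criteria

section Blocks

variable {W : Type} [AddCommGroup W] [Module (ZMod 2) W] [Fintype W] [DecidableEq W]

/-- The complement of the hyperplane `W` in `W × ZMod 2`. -/
def offW (W : Type) [Fintype W] : Finset (W × ZMod 2) := univ ×ˢ {1}

theorem mem_offW (g : W × ZMod 2) : g ∈ offW W ↔ g.2 = 1 := by
  rw [offW, Finset.mem_product]
  simp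

theorem card_offW : (offW W).card = Fintype.card W := by simp [offW]

theorem add_mem_offW (g g' : W × ZMod 2) : g + g' ∈ offW W ↔ g.2 ≠ g'.2 := by
  rw [mem_offW, Prod.snd_add]
  generalize g.2 = a
  generalize g'.2 = b
  revert a b; decide

theorem pair_full (s t : ℕ) (hW : Fintype.card W = 2 ^ (2 * s + 2))
    (ht : 2 ^ (2 * s + 2) = t * (2 * s + 3) + 1) (P : Finset (W × ZMod 2))
    (hP : P.card = 2 * s + 1) (h0 : (0 : W × ZMod 2) ∉ P) :
    CayDec (2 * s + 3) ((univ : Finset (W × ZMod 2)) ×ˢ ({1} : Finset (ZMod 2)) ∪ P ×ˢ {0}) := by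
  refine cayDec_crude (2 * s + 2) (2 * t + 1) _ ?_ (zero_notMem_pair _ _ h0) ?_
  · rw [card_pair, hP, Finset.card_univ, Fintype.card_prod, hW, ZMod.card, ht]
    ring
  · rw [ht]; nlinarith

theorem blockA (s t : ℕ) (hW : Fintype.card W = 2 ^ (2 * s + 2))
    (ht : 2 ^ (2 * s + 2) = t * (2 * s + 3) + 1) (hts : 2 * s + 1 ≤ t) :
    Dec (2 * s + 3) (fun a b : Fin (s + 2) × (W × ZMod 2) => a ≠ b) := by
  have hR : (univ.erase (0 : W × ZMod 2)).card = 2 * (t * (2 * s + 3)) + 1 := by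
    rw [Finset.card_erase_of_mem (Finset.mem_univ _), Finset.card_univ, Fintype.card_prod, hW,
      ZMod.card, ht]
    omega
  obtain ⟨P, hPR, hc, hdisj⟩ := exists_disjoint_family (s + 2) (2 * s + 1)
    (univ.erase (0 : W × ZMod 2)) (by rw [hR]; nlinarith)
  obtain ⟨u, rfl⟩ := Nat.exists_eq_add_of_le hts
  refine (master univ _ P hPR hdisj
    (fun c => pair_full s _ hW ht _ (hc c) (fun h => by simpa using hPR c h)) ?_).congr ?_
  · intro c
    have h1 := card_sdiff_family _ P hPR hc hdisj c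
    rw [hR] at h1
    refine cayDec_crude (2 * s + 2) (3 * s + 2 + 2 * u) _ ?_ (by simp) ?_
    · simp only [show s + 2 - 1 = s + 1 from rfl] at h1
      nlinarith
    · rw [ht]; nlinarith
  · rintro ⟨a, x⟩ ⟨b, y⟩
    simp only [Finset.mem_univ, and_true, Finset.mem_erase, add_ne_zero_iff, ne_eq,
      Prod.mk.injEq]
    have := add_ne_zero_iff x y
    tauto

theorem blockC1 (s t : ℕ) (hW : Fintype.card W = 2 ^ (2 * s + 2))
    (ht : 2 ^ (2 * s + 2) = t * (2 * s + 3) + 1) (hts : 2 * s + 1 ≤ t) :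
    Dec (2 * s + 3) (fun a b : Fin (s + 2) × (W × ZMod 2) => a.1 ≠ b.1 ∨ a.2.2 ≠ b.2.2) := by
  have hR : (offW W).card = t * (2 * s + 3) + 1 := by rw [card_offW, hW, ht]
  have h01 : (0 : ZMod 2) ≠ 1 := by decide
  obtain ⟨P, hPR, hc, hdisj⟩ := exists_disjoint_family (s + 2) (2 * s + 1)
    (offW W) (by rw [hR]; nlinarith)
  obtain ⟨u, rfl⟩ := Nat.exists_eq_add_of_le hts
  refine (master univ _ P hPR hdisj
    (fun c => pair_full s _ hW ht _ (hc c)
      (fun h => h01 (by simpa [mem_offW] using hPR c h))) ?_).congr ?_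
  · intro c
    have h1 := card_sdiff_family _ P hPR hc hdisj c
    rw [hR] at h1
    refine cayDec_affine (2 * s + 1) (s + 1 + u) 0 _ (LinearMap.snd _ _ _) ?_
      (by simp [mem_offW, h01]) ?_ (by omega) (Or.inr rfl) (by omega) ?_
    · simp only [show s + 2 - 1 = s + 1 from rfl] at h1
      nlinarith
    · rw [Nat.le_zero, Finset.card_eq_zero, Finset.filter_eq_empty_iff]
      intro g hg
      simpa [mem_offW] using (Finset.mem_sdiff.mp hg).1
    · rw [pow_succ] at ht
      nlinarith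
  · rintro ⟨a, x⟩ ⟨b, y⟩
    simp only [Finset.mem_univ, and_true, add_mem_offW]
    tauto

theorem blockC2_of (s t : ℕ) (hW : Fintype.card W = 2 ^ (2 * s + 2))
    (ht : 2 ^ (2 * s + 2) = t * (2 * s + 3) + 1) (hts : 2 * s + 1 ≤ t)
    (P : Fin (2 * s + 3) → Finset (W × ZMod 2))
    (hPR : ∀ c, P c ⊆ univ.erase 0) (hc : ∀ c, (P c).card = 2 * s + 2)
    (hdisj : ∀ c c', c ≠ c' → Disjoint (P c) (P c'))
    (hloop : ∀ c, CayDec (2 * s + 3) (univ.erase 0 \ (univ.erase c).biUnion P)) :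
    Dec (2 * s + 3) (fun a b : Fin (2 * s + 3) × (W × ZMod 2) =>
      (a.1 ≠ b.1 ∧ a.2.2 ≠ b.2.2) ∨ (a.1 = b.1 ∧ a.2 ≠ b.2)) := by
  refine (master (offW W) _ P hPR hdisj ?_ hloop).congr ?_
  · intro c
    refine cayDec_affine (2 * s + 1) (t + 1) (2 * s + 2) _ (LinearMap.snd _ _ _) ?_
      (zero_notMem_pair _ _ (fun h => by simpa using hPR c h)) ?_ (by omega) (by omega)
      (by omega) ?_
    · rw [card_pair, hc, card_offW, hW, ht]
      ring
    · have : ((P c) ×ˢ ({0} : Finset (ZMod 2))).card = 2 * s + 2 := by simp [hc]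
      rw [← this]
      apply Finset.card_le_card
      rintro ⟨g, e⟩ hg
      simp only [Finset.mem_filter, Finset.mem_union, Finset.mem_product, Finset.mem_singleton,
        LinearMap.snd_apply] at hg ⊢
      tauto
    · rw [pow_succ] at ht
      nlinarith
  · rintro ⟨a, x⟩ ⟨b, y⟩
    simp only [Finset.mem_univ, and_true, Finset.mem_erase, add_ne_zero_iff, add_mem_offW]

theorem blockC2_large (s t : ℕ) (hs : 1 ≤ s) (hW : Fintype.card W = 2 ^ (2 * s + 2))
    (ht : 2 ^ (2 * s + 2) = t * (2 * s + 3) + 1) (hts : 2 * s + 1 ≤ t) :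
    Dec (2 * s + 3) (fun a b : Fin (2 * s + 3) × (W × ZMod 2) =>
      (a.1 ≠ b.1 ∧ a.2.2 ≠ b.2.2) ∨ (a.1 = b.1 ∧ a.2 ≠ b.2)) := by
  have h01 : (0 : ZMod 2) ≠ 1 := by decide
  have hR : (univ.erase (0 : W × ZMod 2)).card = 2 * (t * (2 * s + 3)) + 1 := by
    rw [Finset.card_erase_of_mem (Finset.mem_univ _), Finset.card_univ, Fintype.card_prod, hW,
      ZMod.card, ht]
    omega
  have hR2 : (offW W).card = t * (2 * s + 3) + 1 := by rw [card_offW, hW, ht]
  have hsub : offW W ⊆ univ.erase (0 : W × ZMod 2) := by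
    intro g hg
    rw [mem_offW] at hg
    simp only [Finset.mem_erase, Finset.mem_univ, and_true]
    rintro rfl
    exact h01 hg
  have hR1 : (univ.erase (0 : W × ZMod 2) \ offW W).card = t * (2 * s + 3) := by
    have := Finset.card_sdiff_add_card_eq_card hsub
    omega
  obtain ⟨P1, hP1, hc1, hd1⟩ := exists_disjoint_family (2 * s + 3) (2 * s + 1)
    (univ.erase (0 : W × ZMod 2) \ offW W) (by rw [hR1]; nlinarith)
  obtain ⟨P2, hP2, hc2, hd2⟩ := exists_disjoint_family (2 * s + 3) 1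
    (offW W) (by rw [hR2]; nlinarith)
  have hd12 : ∀ c c', Disjoint (P1 c) (P2 c') := fun c c' =>
    Finset.disjoint_left.mpr fun g h1 h2 => (Finset.mem_sdiff.mp (hP1 c h1)).2 (hP2 c' h2)
  have hPR : ∀ c, P1 c ∪ P2 c ⊆ univ.erase 0 := fun c =>
    Finset.union_subset ((hP1 c).trans Finset.sdiff_subset) ((hP2 c).trans hsub)
  have hc : ∀ c, (P1 c ∪ P2 c).card = 2 * s + 2 := fun c => by
    rw [Finset.card_union_of_disjoint (hd12 c c), hc1, hc2]
  have hdisj : ∀ c c', c ≠ c' → Disjoint (P1 c ∪ P2 c) (P1 c' ∪ P2 c') := by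
    intro c c' h
    simp only [Finset.disjoint_union_left, Finset.disjoint_union_right]
    exact ⟨⟨hd1 c c' h, (hd12 c' c).symm⟩, hd12 c c', hd2 c c' h⟩
  refine blockC2_of s t hW ht hts (fun c => P1 c ∪ P2 c) hPR hc hdisj ?_
  intro c
  have h1 := card_sdiff_family _ _ hPR hc hdisj c
  have h2 := card_sdiff_family _ _ hP1 hc1 hd1 c
  rw [hR] at h1
  rw [hR1] at h2
  simp only [show 2 * s + 3 - 1 = 2 * s + 2 from rfl] at h1 h2
  obtain ⟨u, rfl⟩ := Nat.exists_eq_add_of_le hts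
  rcases Nat.eq_zero_or_pos u with rfl | hu
  · refine cayDec_affine (2 * s + 1) (2 * s + 1) (2 * s + 1) _ (LinearMap.snd _ _ _) ?_
      (by simp) ?_ (by omega) (by omega) (by omega) ?_
    · nlinarith
    · have h3 : ((univ.erase (0 : W × ZMod 2) \ offW W) \ (univ.erase c).biUnion P1).card =
          2 * s + 1 := by nlinarith
      rw [← h3]
      apply Finset.card_le_card
      intro g hg
      simp only [Finset.mem_filter, Finset.mem_sdiff, Finset.mem_biUnion, Finset.mem_union,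
        LinearMap.snd_apply, mem_offW] at hg ⊢
      refine ⟨⟨hg.1.1, hg.2⟩, ?_⟩
      rintro ⟨a, ha, hga⟩
      exact hg.1.2 ⟨a, ha, Or.inl hga⟩
    · rw [pow_succ] at ht
      nlinarith
  · refine cayDec_crude (2 * s + 2) (2 * s + 1 + 2 * u) _ ?_ (by simp) ?_
    · nlinarith
    · rw [ht]; nlinarith

end Blocks

theorem blockC2_three :
    Dec 3 (fun a b : Fin 3 × ((ZMod 2 × ZMod 2) × ZMod 2) =>
      (a.1 ≠ b.1 ∧ a.2.2 ≠ b.2.2) ∨ (a.1 = b.1 ∧ a.2 ≠ b.2)) := by
  let P : Fin 3 → Finset ((ZMod 2 × ZMod 2) × ZMod 2) :=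
    ![{((1, 0), 0), ((1, 1), 0)}, {((0, 1), 0), ((0, 1), 1)}, {((0, 0), 1), ((1, 0), 1)}]
  refine blockC2_of (W := ZMod 2 × ZMod 2) 0 1 (by decide) (by decide) (by decide) P
    (by decide) (by decide) (by decide) ?_
  intro c
  fin_cases c
  · exact cayDec_affine 1 1 0 _ ((LinearMap.fst _ _ _).comp (LinearMap.fst _ _ _)) (by decide)
      (by decide) (by decide) (by decide) (by decide) (by decide) (by decide)
  · exact cayDec_affine 1 1 0 _ ((LinearMap.snd _ _ _).comp (LinearMap.fst _ _ _)) (by decide)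
      (by decide) (by decide) (by decide) (by decide) (by decide) (by decide)
  · exact cayDec_affine 1 1 0 _ (LinearMap.snd _ _ _) (by decide)
      (by decide) (by decide) (by decide) (by decide) (by decide) (by decide)

end Pool.Agent.MP_6c8b06_co
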