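import Pool.Agent.MP_6c8b06_co.Rado

set_option autoImplicit false

namespace Pool.Agent.MP_6c8b06_co

open Finset

variable {G : Type} [AddCommGroup G] [Module (ZMod 2) G]

theorem zmod_two_cases (a : ZMod 2) : a = 0 ∨ a = 1 := by
  revert a; decide

include G in
theorem add_self_two (g : G) : g + g = 0 := by
  have h : (1 + 1 : ZMod 2) = 0 := by decide
  calc g + g = (1 + 1 : ZMod 2) • g := by rw [add_smul, one_smul]
    _ = 0 := by rw [h, zero_smul]

theorem dec_cayley_basis [Finite G] {d : ℕ} (B : Fin d → G)
    (hB : LinearIndependent (ZMod 2) B) : Dec d (fun u v : G => ∃ i, u + v = B i) := by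
  let U : Submodule (ZMod 2) G := Submodule.span (ZMod 2) (Set.range B)
  let co : Bool → ZMod 2 := fun b => if b then 1 else 0
  let σ : Cube d → G := fun x => ∑ i, co (x i) • B i
  have hσU : ∀ x, σ x ∈ U := fun x =>
    Submodule.sum_mem _ fun i _ => Submodule.smul_mem _ _ (Submodule.subset_span ⟨i, rfl⟩)
  have hσinj : Function.Injective σ := by
    intro x y hxy
    have h1 : ∑ i, (co (x i) - co (y i)) • B i = 0 := by
      simp only [sub_smul, Finset.sum_sub_distrib]
      exact sub_eq_zero.mpr hxy
    have h2 := Fintype.linearIndependent_iff.mp hB _ h1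
    funext i
    have h3 := h2 i
    revert h3
    cases x i <;> cases y i <;> simp [co]
  have hσflip : ∀ i x, σ (flip i x) = σ x + B i := by
    intro i x
    simp only [σ]
    rw [← Finset.add_sum_erase _ _ (Finset.mem_univ i),
      ← Finset.add_sum_erase _ (fun j => co (x j) • B j) (Finset.mem_univ i)]
    have e : ∑ j ∈ univ.erase i, co (flip i x j) • B j = ∑ j ∈ univ.erase i, co (x j) • B j := by
      apply Finset.sum_congr rfl
      intro j hj
      rw [flip_apply_ne (Finset.ne_of_mem_erase hj)]
    rw [e, flip_apply_self]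
    cases x i
    · simp [co, add_comm]
    · simp only [co, Bool.not_true, Bool.false_eq_true, if_false, zero_smul, zero_add, if_true,
        one_smul]
      rw [add_right_comm, add_self_two, zero_add]
  have hσsurj : ∀ g ∈ U, ∃ x, σ x = g := by
    intro g hg
    obtain ⟨c, hc⟩ := (Submodule.mem_span_range_iff_exists_fun (ZMod 2)).mp hg
    refine ⟨fun i => decide (c i = 1), ?_⟩
    rw [← hc]
    apply Finset.sum_congr rfl
    intro i _
    rcases zmod_two_cases (c i) with h | h <;> simp [co, h]
  let φ : (G ⧸ U) → Cube d → G := fun q x => q.out + σ x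
  have hq : ∀ q x, (Submodule.Quotient.mk (φ q x) : G ⧸ U) = q := by
    intro q x
    simp only [φ, Submodule.Quotient.mk_add]
    rw [(Submodule.Quotient.mk_eq_zero U).mpr (hσU x), add_zero]
    exact Quotient.out_eq q
  refine ⟨G ⧸ U, Quotient.finite _, φ, fun q x y h => hσinj (add_left_cancel h), ?_, ?_⟩
  · intro q u v hc
    obtain ⟨x, i, rfl, rfl⟩ := (covers_iff _ _ _).mp hc
    refine ⟨i, ?_⟩
    simp only [φ, hσflip]
    rw [← add_assoc, ← add_assoc, add_assoc (q.out + σ x), add_self_two, zero_add]
  · rintro u v ⟨i, hi⟩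
    let q : G ⧸ U := Submodule.Quotient.mk u
    have hu : u - q.out ∈ U := by
      rw [← Submodule.Quotient.eq]
      exact (Quotient.out_eq q).symm
    obtain ⟨x, hx⟩ := hσsurj _ hu
    have e1 : φ q x = u := by simp [φ, hx]
    refine ⟨q, (covers_iff _ _ _).mpr ⟨x, i, e1, ?_⟩, ?_⟩
    · have : φ q (flip i x) = φ q x + B i := by simp only [φ, hσflip, add_assoc]
      rw [this, e1, ← hi, ← add_assoc, add_self_two, zero_add]
    · intro q' hc
      obtain ⟨x', i', e2, -⟩ := (covers_iff _ _ _).mp hc
      rw [← hq q' x', e2]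

/-- The Cayley graph with connection set `S` decomposes into `d`-cubes. -/
def CayDec (d : ℕ) (S : Finset G) : Prop := Dec d (fun u v : G => u + v ∈ S)

theorem cayDec_of_rank [Finite G] {d : ℕ} (T : Finset G) (hc : T.card = d) (hr : rk T = d) :
    CayDec d T := by
  have hli : LinearIndependent (ZMod 2) (fun t : T => (t : G)) := by
    rw [linearIndependent_iff_card_eq_finrank_span]
    simp only [Fintype.card_coe, Subtype.range_coe_subtype, Finset.setOfPred_mem]
    rw [hc, ← hr]
    rfl
  let e : Fin d ≃ T := (Finset.equivFinOfCardEq hc).symm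
  have h := dec_cayley_basis (fun i => (e i : G)) (hli.comp e e.injective)
  refine h.congr ?_
  intro u v
  constructor
  · rintro ⟨i, hi⟩
    rw [hi]
    exact (e i).2
  · intro huv
    exact ⟨e.symm ⟨u + v, huv⟩, by simp⟩

theorem cayDec_of_rado [Finite G] [DecidableEq G] (d c : ℕ) (S : Finset G) (hS : S.card = c * d)
    (h : ∀ J ⊆ S, rk J < d → J.card ≤ c * rk J) : CayDec d S := by
  obtain ⟨T, h1, h2⟩ := rado_horn d c S hS h
  exact Dec.glue (fun i u v => u + v ∈ T i) _
    (fun i => cayDec_of_rank (T i) (h1 i).2.1 (h1 i).2.2)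
    (fun i u v huv => (h1 i).1 huv) (fun u v huv => h2 _ huv)

theorem card_le_of_subset_span [Finite G] (J A : Finset G)
    (hA : ∀ a ∈ A, a ∈ Submodule.span (ZMod 2) (J : Set G)) : A.card ≤ 2 ^ rk J := by
  have h1 : Nat.card (Submodule.span (ZMod 2) (J : Set G)) = 2 ^ rk J := by
    rw [Module.natCard_eq_pow_finrank (K := ZMod 2)]
    simp [rk]
  rw [← h1, ← Nat.card_eq_finsetCard]
  exact Nat.card_le_card_of_injective (fun a : A => (⟨a.1, hA a.1 a.2⟩ :
    Submodule.span (ZMod 2) (J : Set G))) (fun a b h => Subtype.ext (by simpa using h))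

theorem card_crude [Finite G] [DecidableEq G] (J : Finset G) (h0 : (0 : G) ∉ J) :
    J.card + 1 ≤ 2 ^ rk J := by
  rw [← Finset.card_insert_of_notMem h0]
  apply card_le_of_subset_span
  intro a ha
  rcases Finset.mem_insert.mp ha with rfl | ha
  · exact Submodule.zero_mem _
  · exact Submodule.subset_span ha

theorem card_affine [Finite G] [DecidableEq G] (J : Finset G) (f : G →ₗ[ZMod 2] ZMod 2) :
    2 * (J.filter (fun g => f g = 1)).card ≤ 2 ^ rk J := by
  set A := J.filter (fun g => f g = 1) with hA
  rcases A.eq_empty_or_nonempty with h | ⟨a, ha⟩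
  · simp [h]
  have ha' := Finset.mem_filter.mp ha
  have hdisj : Disjoint A (A.image (· + a)) := by
    rw [Finset.disjoint_left]
    intro b hb hb'
    obtain ⟨c, hc, rfl⟩ := Finset.mem_image.mp hb'
    have e1 := (Finset.mem_filter.mp hb).2
    rw [map_add, (Finset.mem_filter.mp hc).2, ha'.2] at e1
    revert e1; decide
  have hcard : (A ∪ A.image (· + a)).card = 2 * A.card := by
    rw [Finset.card_union_of_disjoint hdisj,
      Finset.card_image_of_injective _ (add_left_injective a)]
    ring
  rw [← hcard]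
  apply card_le_of_subset_span
  intro b hb
  rcases Finset.mem_union.mp hb with hb | hb
  · exact Submodule.subset_span (Finset.mem_filter.mp hb).1
  · obtain ⟨c, hc, rfl⟩ := Finset.mem_image.mp hb
    exact Submodule.add_mem _ (Submodule.subset_span (Finset.mem_filter.mp hc).1)
      (Submodule.subset_span ha'.1)

/-- Numerical criterion for a Cayley graph to decompose into `d`-cubes. -/
theorem cayDec_criterion [Finite G] [DecidableEq G] (d c p : ℕ) (S : Finset G)
    (f : G →ₗ[ZMod 2] ZMod 2) (hS : S.card = c * d) (h0 : (0 : G) ∉ S)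
    (hp : (S.filter (fun g => ¬ f g = 1)).card ≤ p)
    (h : ∀ j, j + 1 < d → 2 ^ (j + 1) ≤ c * (j + 1) + 1 ∨ 2 ^ j + p ≤ c * (j + 1)) :
    CayDec d S := by
  apply cayDec_of_rado d c S hS
  intro J hJ hr
  have a1 := card_crude J (fun h => h0 (hJ h))
  have a2 := card_affine J f
  have a3 := Finset.card_filter_add_card_filter_not (s := J) (fun g => f g = 1)
  have a4 : (J.filter (fun g => ¬ f g = 1)).card ≤ p :=
    le_trans (Finset.card_le_card (Finset.filter_subset_filter _ hJ)) hp
  rcases hj : rk J with _ | j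
  · rw [hj] at a1
    omega
  · rw [hj] at a1 a2 hr
    rcases h j hr with h | h
    · omega
    · rw [pow_succ] at a2
      omega

end Pool.Agent.MP_6c8b06_co
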