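import Pool.Agent.MP_6c8b06_co.Assemble

set_option autoImplicit false

namespace Pool.Agent.MP_6c8b06_co

theorem necessary_counts {d m k : ℕ} (hm : 0 < m) (φ : Fin k → Cube d → Fin m)
    (hinj : ∀ i, Function.Injective (φ i))
    (hcov : ∀ u v : Fin m, u ≠ v → ∃! i, Covers (φ i) u v) :
    d ∣ m - 1 ∧ 2 ^ d ∣ m * (m - 1) := by
  let A : Fin m → Finset (Fin k × Cube d) := fun u => Finset.univ.filter (fun p => φ p.1 p.2 = u)
  have hdeg : ∀ u, (A u).card * d = m - 1 := by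
    intro u
    have h1 : (A u ×ˢ (Finset.univ : Finset (Fin d))).card = (Finset.univ.erase u).card := by
      apply Finset.card_bij (fun q _ => φ q.1.1 (flip q.2 q.1.2))
      · rintro ⟨⟨i, x⟩, j⟩ hq
        simp only [A, Finset.mem_product, Finset.mem_filter, Finset.mem_univ, true_and,
          and_true] at hq
        simp only [Finset.mem_erase, Finset.mem_univ, and_true]
        intro h
        exact flip_ne j x (hinj i (h.trans hq.symm))
      · rintro ⟨⟨i, x⟩, j⟩ hq ⟨⟨i', x'⟩, j'⟩ hq' h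
        simp only [A, Finset.mem_product, Finset.mem_filter, Finset.mem_univ, true_and,
          and_true] at hq hq' h
        have hne : u ≠ φ i (flip j x) := fun e => flip_ne j x (hinj i (e.symm.trans hq.symm))
        obtain ⟨l, -, hl⟩ := hcov u _ hne
        have e1 := hl i ((covers_iff _ _ _).mpr ⟨x, j, hq, rfl⟩)
        have e2 := hl i' ((covers_iff _ _ _).mpr ⟨x', j', hq', h.symm⟩)
        obtain rfl : i = i' := e1.trans e2.symm
        obtain rfl : x = x' := hinj i (hq.trans hq'.symm)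
        obtain rfl : j = j' := flip_inj (hinj i h)
        rfl
      · intro v hv
        simp only [Finset.mem_erase, Finset.mem_univ, and_true] at hv
        obtain ⟨i, hi, -⟩ := hcov u v (Ne.symm hv)
        obtain ⟨x, j, e1, e2⟩ := (covers_iff _ _ _).mp hi
        exact ⟨((i, x), j), by simp [A, e1], e2⟩
    simpa using h1
  refine ⟨⟨(A ⟨0, hm⟩).card, by rw [← hdeg ⟨0, hm⟩, mul_comm]⟩, ?_⟩
  have h2 : (Finset.univ : Finset (Fin k × Cube d)).card = ∑ u, (A u).card :=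
    Finset.card_eq_sum_card_fiberwise (f := fun p : Fin k × Cube d => φ p.1 p.2) (fun _ _ => Finset.mem_univ _)
  have h3 : (∑ u, (A u).card) * d = m * (m - 1) := by
    rw [Finset.sum_mul]
    simp [hdeg]
  rw [← h3, ← h2]
  refine ⟨k * d, ?_⟩
  simp
  ring

theorem main_theorem (d : ℕ) (hp : d.Prime) (h2 : 2 < d) (m : ℕ) (hm : 0 < m) :
    (∃ k : ℕ, ∃ φ : Fin k → Cube d → Fin m, (∀ i, Function.Injective (φ i)) ∧
      ∀ u v : Fin m, u ≠ v → ∃! i : Fin k, Covers (φ i) u v) ↔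
    (m ≡ 1 [MOD d * 2 ^ d] ∨ m ≡ (d + 1) * 2 ^ (d - 1) [MOD d * 2 ^ d]) := by
  obtain ⟨s, rfl⟩ : ∃ s, d = 2 * s + 3 := by
    obtain ⟨a, ha⟩ := hp.odd_of_ne_two (by omega)
    exact ⟨a - 1, by omega⟩
  have hcop : Nat.Coprime (2 * s + 3) 2 :=
    (Nat.coprime_primes hp Nat.prime_two).mpr (by omega)
  have hcop' : Nat.Coprime (2 * s + 3) (2 ^ (2 * s + 3)) := hcop.pow_right _
  have hfer : 2 ^ (2 * s + 2) ≡ 1 [MOD (2 * s + 3)] :=
    Nat.ModEq.pow_card_sub_one_eq_one hp hcop.symm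
  have hsub : 2 * s + 3 - 1 = 2 * s + 2 := rfl
  rw [hsub]
  have hpos : 1 ≤ 2 ^ (2 * s + 2) := Nat.one_le_two_pow
  constructor
  · rintro ⟨k, φ, hinj, hcov⟩
    obtain ⟨c1, c2⟩ := necessary_counts hm φ hinj hcov
    have c3 : m ≡ 1 [MOD (2 * s + 3)] := ((Nat.modEq_iff_dvd' hm).mpr c1).symm
    have hmm : Nat.Coprime m (m - 1) := by
      obtain ⟨n, rfl⟩ : ∃ n, m = n + 1 := ⟨m - 1, by omega⟩
      simp
    rcases Nat.even_or_odd m with he | ho
    · right
      have h2m : Nat.Coprime (2 ^ (2 * s + 3)) (m - 1) :=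
        Nat.Coprime.pow_left _ (Nat.Coprime.coprime_dvd_left he.two_dvd hmm)
      have c4 : 2 ^ (2 * s + 3) ∣ m := h2m.dvd_of_dvd_mul_right c2
      rw [← Nat.modEq_and_modEq_iff_modEq_mul hcop']
      constructor
      · refine c3.trans ?_
        have : 2 * s + 3 + 1 ≡ 1 [MOD (2 * s + 3)] := by simp [Nat.ModEq]
        simpa using (this.mul hfer).symm
      · refine ((Nat.modEq_zero_iff_dvd).mpr c4).trans ((Nat.modEq_zero_iff_dvd).mpr ?_).symm
        exact ⟨s + 2, by ring⟩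
    · left
      have h2m : Nat.Coprime (2 ^ (2 * s + 3)) m :=
        Nat.Coprime.pow_left _ ((Nat.coprime_two_left).mpr ho)
      have c4 : 2 ^ (2 * s + 3) ∣ m - 1 := h2m.dvd_of_dvd_mul_left c2
      rw [← Nat.modEq_and_modEq_iff_modEq_mul hcop']
      exact ⟨c3, ((Nat.modEq_iff_dvd' hm).mpr c4).symm⟩
  · intro h
    have hdec : Dec (2 * s + 3) (fun u v : Fin m => u ≠ v) := by
      rcases h with h | h
      · obtain ⟨r, hr⟩ := (Nat.modEq_iff_dvd' hm).mp h.symm
        have e : m = 1 + r * ((2 * s + 2 + 1) * 2 ^ (2 * s + 2 + 1)) := by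
          rw [mul_comm r, ← hr]; omega
        rw [e]
        exact dec_odd_case (2 * s + 2) r
      · have hlt : (2 * s + 3 + 1) * 2 ^ (2 * s + 2) < (2 * s + 3) * 2 ^ (2 * s + 3) := by
          rw [pow_succ 2 (2 * s + 2)]
          nlinarith
        have e : m = (2 * s + 3 + 1) * 2 ^ (2 * s + 2) +
            (m / ((2 * s + 3) * 2 ^ (2 * s + 3))) * ((2 * s + 3) * 2 ^ (2 * s + 3)) := by
          rw [← Nat.mod_eq_of_lt hlt, ← h, Nat.mod_add_div']
        rw [e]
        exact dec_even_case s ((Nat.modEq_iff_dvd' hpos).mp hfer.symm) _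
    obtain ⟨ι, hι, φ, h1, -, h3⟩ := hdec
    obtain ⟨k, ⟨e⟩⟩ := Finite.exists_equiv_fin ι
    refine ⟨k, fun i => φ (e.symm i), fun i => h1 _, ?_⟩
    intro u v huv
    obtain ⟨i, hi, hu⟩ := h3 u v huv
    refine ⟨e i, by simpa using hi, ?_⟩
    intro j hj
    rw [← hu _ hj]
    simp

end Pool.Agent.MP_6c8b06_co
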