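import Pool.Agent.MP_6c8b06_co.Cayley

set_option autoImplicit false

namespace Pool.Agent.MP_6c8b06_co

open Finset

variable {G : Type} [AddCommGroup G] [DecidableEq G]

theorem dec_pair {d : ℕ} {I : Type} (i j : I) (hij : i ≠ j) (Q P : Finset G)
    (h : CayDec d (Q ×ˢ ({1} : Finset (ZMod 2)) ∪ P ×ˢ {0})) :
    Dec d (fun a b : I × G =>
      (((a.1 = i ∧ b.1 = j) ∨ (a.1 = j ∧ b.1 = i)) ∧ a.2 + b.2 ∈ Q) ∨
        ((a.1 = b.1 ∧ (a.1 = i ∨ a.1 = j)) ∧ a.2 + b.2 ∈ P)) := by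
  have h01 : (0 : ZMod 2) ≠ 1 := by decide
  have h11 : (1 + 1 : ZMod 2) = 0 := by decide
  let f : G × ZMod 2 → I × G := fun z => (if z.2 = 0 then i else j, z.1)
  have hf : Function.Injective f := by
    rintro ⟨g, s⟩ ⟨g', t⟩ e
    simp only [f, Prod.mk.injEq] at e ⊢
    refine ⟨e.2, ?_⟩
    have e1 := e.1
    rcases zmod_two_cases s with rfl | rfl <;> rcases zmod_two_cases t with rfl | rfl <;>
      simp [h01.symm, hij, hij.symm] at e1 ⊢
  refine (Dec.map h f hf).congr ?_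
  rintro ⟨a, x⟩ ⟨b, y⟩
  constructor
  · rintro ⟨⟨g, s⟩, ⟨g', t⟩, hm, e1, e2⟩
    simp only [f, Prod.mk.injEq] at e1 e2
    obtain ⟨rfl, rfl⟩ := e1
    obtain ⟨rfl, rfl⟩ := e2
    rcases zmod_two_cases s with rfl | rfl <;> rcases zmod_two_cases t with rfl | rfl <;>
      simp [h01, h01.symm, h11, hij, hij.symm] at hm ⊢ <;> exact hm
  · rintro (⟨⟨rfl, rfl⟩ | ⟨rfl, rfl⟩, hm⟩ | ⟨⟨e, rfl | rfl⟩, hm⟩)
    · exact ⟨(x, 0), (y, 1), by simpa [h01.symm] using hm, by simp [f], by simp [f, h01.symm]⟩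
    · exact ⟨(x, 1), (y, 0), by simpa [h01.symm] using hm, by simp [f, h01.symm], by simp [f]⟩
    · simp only at e
      subst e
      exact ⟨(x, 0), (y, 0), by simpa [h01] using hm, by simp [f], by simp [f]⟩
    · simp only at e
      subst e
      exact ⟨(x, 1), (y, 1), by simpa [h01, h11] using hm, by simp [f, h01.symm],
        by simp [f, h01.symm]⟩

omit [DecidableEq G] in
theorem dec_loop {d : ℕ} {I : Type} (i : I) (S : Finset G) (h : CayDec d S) :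
    Dec d (fun a b : I × G => a.1 = i ∧ b.1 = i ∧ a.2 + b.2 ∈ S) := by
  refine (Dec.map h (fun g => (i, g)) (fun g g' e => congrArg Prod.snd e)).congr ?_
  rintro ⟨a, x⟩ ⟨b, y⟩
  constructor
  · rintro ⟨g, g', hm, e1, e2⟩
    simp only [Prod.mk.injEq] at e1 e2
    obtain ⟨rfl, rfl⟩ := e1
    obtain ⟨rfl, rfl⟩ := e2
    exact ⟨rfl, rfl, hm⟩
  · rintro ⟨rfl, rfl, hm⟩
    exact ⟨x, y, hm, rfl, rfl⟩

theorem master {d k : ℕ} [NeZero k] (Q R : Finset G) (P : Fin k → Finset G)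
    (hPR : ∀ c, P c ⊆ R) (hdisj : ∀ c c', c ≠ c' → Disjoint (P c) (P c'))
    (hpair : ∀ c, CayDec d (Q ×ˢ ({1} : Finset (ZMod 2)) ∪ P c ×ˢ {0}))
    (hloop : ∀ c, CayDec d (R \ (univ.erase c).biUnion P)) :
    Dec d (fun a b : Fin k × G =>
      (a.1 ≠ b.1 ∧ a.2 + b.2 ∈ Q) ∨ (a.1 = b.1 ∧ a.2 + b.2 ∈ R)) := by
  have h1 : Dec d (fun a b : Fin k × G => (a.1 ≠ b.1 ∧ a.2 + b.2 ∈ Q) ∨
      (a.1 = b.1 ∧ a.2 + b.2 ∈ (univ.erase (a.1 + a.1)).biUnion P)) := by
    refine Dec.glue (J := {p : Fin k × Fin k // p.1 < p.2}) _ _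
      (fun p => dec_pair p.1.1 p.1.2 p.2.ne Q (P (p.1.1 + p.1.2)) (hpair _)) ?_ ?_
    · rintro ⟨⟨i, j⟩, hij⟩ ⟨a, x⟩ ⟨b, y⟩
      simp only at hij ⊢
      rintro (⟨⟨rfl, rfl⟩ | ⟨rfl, rfl⟩, hm⟩ | ⟨⟨e, rfl | rfl⟩, hm⟩)
      · exact Or.inl ⟨hij.ne, hm⟩
      · exact Or.inl ⟨hij.ne', hm⟩
      · refine Or.inr ⟨e, Finset.mem_biUnion.mpr ⟨_, ?_, hm⟩⟩
        simp [hij.ne']
      · refine Or.inr ⟨e, Finset.mem_biUnion.mpr ⟨_, ?_, hm⟩⟩
        simp [hij.ne]
    · rintro ⟨a, x⟩ ⟨b, y⟩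
      simp only
      rintro (⟨hab, hm⟩ | ⟨rfl, hm⟩)
      · rcases lt_or_gt_of_ne hab with h | h
        · refine ⟨⟨(a, b), h⟩, Or.inl ⟨Or.inl ⟨rfl, rfl⟩, hm⟩, ?_⟩
          rintro ⟨⟨i, j⟩, hij⟩ (⟨⟨rfl, rfl⟩ | ⟨rfl, rfl⟩, -⟩ | ⟨⟨e, -⟩, -⟩)
          · rfl
          · exact absurd hij (not_lt.mpr h.le)
          · exact absurd e hab
        · refine ⟨⟨(b, a), h⟩, Or.inl ⟨Or.inr ⟨rfl, rfl⟩, hm⟩, ?_⟩
          rintro ⟨⟨i, j⟩, hij⟩ (⟨⟨rfl, rfl⟩ | ⟨rfl, rfl⟩, -⟩ | ⟨⟨e, -⟩, -⟩)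
          · exact absurd hij (not_lt.mpr h.le)
          · rfl
          · exact absurd e hab
      · obtain ⟨c, hc, hm⟩ := Finset.mem_biUnion.mp hm
        have hc' : c ≠ a + a := Finset.ne_of_mem_erase hc
        have hba : c - a ≠ a := fun e => hc' (sub_eq_iff_eq_add.mp e)
        have huniq : ∀ c', x + y ∈ P c' → c' = c := by
          intro c' h'
          by_contra hne
          exact Finset.disjoint_left.mp (hdisj c' c hne) h' hm
        rcases lt_or_gt_of_ne hba with h | h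
        · refine ⟨⟨(c - a, a), h⟩, Or.inr ⟨⟨rfl, Or.inr rfl⟩, by simpa using hm⟩, ?_⟩
          rintro ⟨⟨i, j⟩, hij⟩ (⟨⟨rfl, rfl⟩ | ⟨rfl, rfl⟩, -⟩ | ⟨⟨-, rfl | rfl⟩, h'⟩)
          · exact absurd hij (lt_irrefl _)
          · exact absurd hij (lt_irrefl _)
          · have := huniq _ h'
            simp only at this hij
            have e : j = c - a := by rw [← this]; simp
            exact absurd hij (not_lt.mpr (e ▸ h.le))
          · have := huniq _ h'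
            simp only at this hij
            have e : i = c - a := by rw [← this]; simp
            subst e
            rfl
        · refine ⟨⟨(a, c - a), h⟩, Or.inr ⟨⟨rfl, Or.inl rfl⟩, by simpa using hm⟩, ?_⟩
          rintro ⟨⟨i, j⟩, hij⟩ (⟨⟨rfl, rfl⟩ | ⟨rfl, rfl⟩, -⟩ | ⟨⟨-, rfl | rfl⟩, h'⟩)
          · exact absurd hij (lt_irrefl _)
          · exact absurd hij (lt_irrefl _)
          · have := huniq _ h'
            simp only at this hij
            have e : j = c - a := by rw [← this]; simp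
            subst e
            rfl
          · have := huniq _ h'
            simp only at this hij
            have e : i = c - a := by rw [← this]; simp
            exact absurd hij (not_lt.mpr (e ▸ h.le))
  have h2 : Dec d (fun a b : Fin k × G =>
      a.1 = b.1 ∧ a.2 + b.2 ∈ R \ (univ.erase (a.1 + a.1)).biUnion P) := by
    refine Dec.glue (J := Fin k) _ _ (fun i => dec_loop i _ (hloop (i + i))) ?_ ?_
    · rintro i ⟨a, x⟩ ⟨b, y⟩ ⟨rfl, rfl, hm⟩
      exact ⟨rfl, hm⟩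
    · rintro ⟨a, x⟩ ⟨b, y⟩ ⟨e, hm⟩
      simp only at e
      subst e
      refine ⟨a, ⟨rfl, rfl, hm⟩, ?_⟩
      rintro i ⟨e, -⟩
      exact e.symm
  refine (h1.or h2 ?_).congr ?_
  · rintro a b (⟨h, -⟩ | ⟨-, h⟩) ⟨e, h'⟩
    · exact h e
    · exact (Finset.mem_sdiff.mp h').2 h
  · intro a b
    constructor
    · rintro ((h | ⟨e, h⟩) | ⟨e, h⟩)
      · exact Or.inl h
      · obtain ⟨c, -, hm⟩ := Finset.mem_biUnion.mp h
        exact Or.inr ⟨e, hPR c hm⟩
      · exact Or.inr ⟨e, (Finset.mem_sdiff.mp h).1⟩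
    · rintro (h | ⟨e, h⟩)
      · exact Or.inl (Or.inl h)
      · by_cases h' : a.2 + b.2 ∈ (univ.erase (a.1 + a.1)).biUnion P
        · exact Or.inl (Or.inr ⟨e, h'⟩)
        · exact Or.inr ⟨e, Finset.mem_sdiff.mpr ⟨h, h'⟩⟩

/-- Pairwise disjoint subsets of a prescribed size. -/
theorem exists_disjoint_family {α : Type} [DecidableEq α] (k p : ℕ) (R : Finset α)
    (h : k * p ≤ R.card) :
    ∃ P : Fin k → Finset α, (∀ c, P c ⊆ R) ∧ (∀ c, (P c).card = p) ∧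
      ∀ c c', c ≠ c' → Disjoint (P c) (P c') := by
  obtain ⟨f⟩ : Nonempty (Fin k × Fin p ↪ R) :=
    Function.Embedding.nonempty_of_card_le (by simpa using h)
  refine ⟨fun c => univ.image (fun j : Fin p => (f (c, j) : α)), ?_, ?_, ?_⟩
  · intro c a ha
    obtain ⟨j, -, rfl⟩ := Finset.mem_image.mp ha
    exact (f (c, j)).2
  · intro c
    rw [Finset.card_image_of_injective]
    · simp
    · intro j j' e
      have := f.injective (Subtype.ext e)
      exact congrArg Prod.snd this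
  · intro c c' hc
    rw [Finset.disjoint_left]
    intro a ha ha'
    obtain ⟨j, -, rfl⟩ := Finset.mem_image.mp ha
    obtain ⟨j', -, e⟩ := Finset.mem_image.mp ha'
    have := f.injective (Subtype.ext e)
    exact hc (congrArg Prod.fst this).symm

theorem card_sdiff_family {α : Type} [DecidableEq α] {k p : ℕ} (R : Finset α)
    (P : Fin k → Finset α) (hPR : ∀ c, P c ⊆ R) (hc : ∀ c, (P c).card = p)
    (hdisj : ∀ c c', c ≠ c' → Disjoint (P c) (P c')) (c : Fin k) :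
    (R \ (univ.erase c).biUnion P).card + (k - 1) * p = R.card := by
  have h1 : ((univ.erase c).biUnion P).card = (k - 1) * p := by
    rw [Finset.card_biUnion (fun x _ y _ hxy => hdisj x y hxy)]
    simp [hc]
  rw [← h1]
  apply Finset.card_sdiff_add_card_eq_card
  exact Finset.biUnion_subset.mpr fun x _ => hPR x

end Pool.Agent.MP_6c8b06_co
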