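import Pool.Agent.MP_6c8b06_co.Basic

set_option autoImplicit false

namespace Pool.Agent.MP_6c8b06_co

open Finset

/-- Rado's argument for a monotone submodular function: colours can be discarded one at a time. -/
theorem rado_reduce {α κ : Type} [DecidableEq α] [DecidableEq κ] [Fintype κ]
    (r : Finset α → ℕ) (mono : ∀ X Y, X ⊆ Y → r X ≤ r Y)
    (submod : ∀ X Y, r (X ∪ Y) + r (X ∩ Y) ≤ r X + r Y) (S : Finset α) :
    ∀ (n : ℕ) (A : α → Finset κ), ∑ s ∈ S, (A s).card = n →
      (∀ J ⊆ S, J.card ≤ ∑ i, r (J.filter (fun s => i ∈ A s))) →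
      ∃ B : α → Finset κ, (∀ s ∈ S, (B s).card ≤ 1) ∧
        ∀ J ⊆ S, J.card ≤ ∑ i, r (J.filter (fun s => i ∈ B s)) := by
  intro n
  induction n using Nat.strong_induction_on with
  | _ n ih =>
  intro A hn hA
  by_cases hall : ∀ s ∈ S, (A s).card ≤ 1
  · exact ⟨A, hall, hA⟩
  push Not at hall
  obtain ⟨s, hs, hcard⟩ := hall
  obtain ⟨x, hx, y, hy, hxy⟩ := Finset.one_lt_card.mp hcard
  have hless : ∀ z ∈ A s, ∑ t ∈ S, (Function.update A s ((A s).erase z) t).card < n := by
    intro z hz
    rw [← hn]
    apply Finset.sum_lt_sum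
    · intro t _
      by_cases h : t = s
      · subst h
        rw [Function.update_self]
        exact Finset.card_erase_le
      · rw [Function.update_of_ne h]
    · refine ⟨s, hs, ?_⟩
      rw [Function.update_self]
      exact Finset.card_erase_lt_of_mem hz
  by_cases h1 : ∀ J ⊆ S, J.card ≤
      ∑ i, r (J.filter (fun t => i ∈ Function.update A s ((A s).erase x) t))
  · exact ih _ (hless x hx) _ rfl h1
  by_cases h2 : ∀ J ⊆ S, J.card ≤
      ∑ i, r (J.filter (fun t => i ∈ Function.update A s ((A s).erase y) t))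
  · exact ih _ (hless y hy) _ rfl h2
  exfalso
  push Not at h1 h2
  obtain ⟨J1, hJ1, g1⟩ := h1
  obtain ⟨J2, hJ2, g2⟩ := h2
  have mem : ∀ (z : κ) (J : Finset α), J ⊆ S →
      ∑ i, r (J.filter (fun t => i ∈ Function.update A s ((A s).erase z) t)) < J.card →
      s ∈ J := by
    intro z J hJ g
    by_contra hsJ
    have := hA J hJ
    have e : ∀ i, J.filter (fun t => i ∈ Function.update A s ((A s).erase z) t) =
        J.filter (fun t => i ∈ A t) := by
      intro i
      apply Finset.filter_congr
      intro t ht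
      have hts : t ≠ s := fun h => hsJ (h ▸ ht)
      rw [Function.update_of_ne hts]
    simp only [e] at g
    omega
  have s1 := mem x J1 hJ1 g1
  have s2 := mem y J2 hJ2 g2
  have a1 := hA (J1 ∪ J2) (Finset.union_subset hJ1 hJ2)
  have a2 := hA ((J1 ∩ J2).erase s)
    ((Finset.erase_subset _ _).trans (Finset.inter_subset_left.trans hJ1))
  have a3 : ((J1 ∩ J2).erase s).card + 1 = (J1 ∩ J2).card :=
    Finset.card_erase_add_one (Finset.mem_inter.mpr ⟨s1, s2⟩)
  have a4 := Finset.card_union_add_card_inter J1 J2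
  have a5 : ∑ i, r ((J1 ∪ J2).filter (fun t => i ∈ A t)) +
      ∑ i, r (((J1 ∩ J2).erase s).filter (fun t => i ∈ A t)) ≤
      ∑ i, r (J1.filter (fun t => i ∈ Function.update A s ((A s).erase x) t)) +
      ∑ i, r (J2.filter (fun t => i ∈ Function.update A s ((A s).erase y) t)) := by
    rw [← Finset.sum_add_distrib, ← Finset.sum_add_distrib]
    apply Finset.sum_le_sum
    intro i _
    refine le_trans (add_le_add (mono _ _ ?_) (mono _ _ ?_)) (submod _ _)
    · intro t ht
      simp only [Finset.mem_filter, Finset.mem_union] at ht ⊢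
      by_cases h : t = s
      · subst h
        simp only [Function.update_self, Finset.mem_erase]
        by_cases hi : i = x
        · exact Or.inr ⟨s2, by rw [hi]; exact hxy, ht.2⟩
        · exact Or.inl ⟨s1, hi, ht.2⟩
      · simp only [Function.update_of_ne h]
        tauto
    · intro t ht
      simp only [Finset.mem_filter, Finset.mem_inter, Finset.mem_erase] at ht ⊢
      simp only [Function.update_of_ne ht.1.1]
      tauto
  omega

variable {G : Type} [AddCommGroup G] [Module (ZMod 2) G]

/-- Rank of a finite set of vectors. -/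
noncomputable def rk (X : Finset G) : ℕ :=
  Module.finrank (ZMod 2) (Submodule.span (ZMod 2) (X : Set G))

theorem rk_mono {X Y : Finset G} (h : X ⊆ Y) : rk X ≤ rk Y :=
  Submodule.finrank_mono (Submodule.span_mono (Finset.coe_subset.mpr h))

theorem rk_submod [DecidableEq G] (X Y : Finset G) : rk (X ∪ Y) + rk (X ∩ Y) ≤ rk X + rk Y := by
  unfold rk
  rw [← Submodule.finrank_sup_add_finrank_inf_eq (Submodule.span (ZMod 2) (X : Set G)),
    Finset.coe_union, Submodule.span_union]
  apply Nat.add_le_add_left
  apply Submodule.finrank_mono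
  rw [Finset.coe_inter]
  exact le_inf (Submodule.span_mono Set.inter_subset_left)
    (Submodule.span_mono Set.inter_subset_right)

theorem rk_le_card (X : Finset G) : rk X ≤ X.card := finrank_span_finset_le_card X

/-- Rado-Horn theorem for the truncation at rank `d`. -/
theorem rado_horn [DecidableEq G] (d c : ℕ) (S : Finset G) (hS : S.card = c * d)
    (h : ∀ J ⊆ S, rk J < d → J.card ≤ c * rk J) :
    ∃ T : Fin c → Finset G, (∀ i, T i ⊆ S ∧ (T i).card = d ∧ rk (T i) = d) ∧
      ∀ s ∈ S, ∃! i, s ∈ T i := by
  obtain ⟨B, hB1, hB2⟩ := rado_reduce (κ := Fin c) (fun X : Finset G => min d (rk X))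
    (fun X Y hXY => min_le_min_left d (rk_mono hXY))
    (fun X Y => by
      have a1 := rk_submod X Y
      have a2 : rk X ≤ rk (X ∪ Y) := rk_mono Finset.subset_union_left
      have a3 : rk Y ≤ rk (X ∪ Y) := rk_mono Finset.subset_union_right
      have a4 : rk (X ∩ Y) ≤ rk X := rk_mono Finset.inter_subset_left
      have a5 : rk (X ∩ Y) ≤ rk Y := rk_mono Finset.inter_subset_right
      omega) S _ (fun _ => Finset.univ) rfl (by
      intro J hJ
      simp only [Finset.mem_univ, Finset.filter_true, Finset.sum_const, Finset.card_univ,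
        Fintype.card_fin, smul_eq_mul]
      by_cases hd : rk J < d
      · rw [min_eq_right hd.le]; exact h J hJ hd
      · rw [min_eq_left (not_lt.mp hd), ← hS]; exact Finset.card_le_card hJ)
  let T : Fin c → Finset G := fun i => S.filter (fun s => i ∈ B s)
  have hsum : ∑ i, (T i).card ≤ c * d := by
    rw [← hS]
    calc ∑ i, (T i).card = ∑ i : Fin c, ∑ s ∈ S, if i ∈ B s then 1 else 0 := by
          simp only [T, Finset.card_filter]
      _ = ∑ s ∈ S, ∑ i : Fin c, if i ∈ B s then 1 else 0 := Finset.sum_comm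
      _ = ∑ s ∈ S, (B s).card := by simp
      _ ≤ ∑ s ∈ S, 1 := Finset.sum_le_sum hB1
      _ = S.card := by simp
  have h1 : ∑ _i : Fin c, d ≤ ∑ i, min d (rk (T i)) := by
    have := hB2 S (Finset.Subset.refl _)
    simpa [hS] using this
  have h2 : ∀ i, min d (rk (T i)) = d := by
    intro i
    exact (Finset.sum_eq_sum_iff_of_le (fun j _ => min_le_left d (rk (T j)))).mp
      (le_antisymm (Finset.sum_le_sum fun j _ => min_le_left _ _) h1) i (Finset.mem_univ i)
  have h3 : ∀ i, d ≤ (T i).card := by
    intro i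
    have := h2 i
    have := rk_le_card (T i)
    omega
  have h4 : ∀ i, d = (T i).card := by
    intro i
    exact (Finset.sum_eq_sum_iff_of_le (fun j _ => h3 j)).mp
      (le_antisymm (Finset.sum_le_sum fun j _ => h3 j) (by simpa using hsum)) i (Finset.mem_univ i)
  refine ⟨T, fun i => ⟨Finset.filter_subset _ _, (h4 i).symm, ?_⟩, ?_⟩
  · have := h2 i
    have := rk_le_card (T i)
    have := h4 i
    omega
  · intro s hs
    have hne : (B s).Nonempty := by
      by_contra hne
      rw [Finset.not_nonempty_iff_eq_empty] at hne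
      have := hB2 {s} (Finset.singleton_subset_iff.mpr hs)
      have e : ∀ i : Fin c, ({s} : Finset G).filter (fun t => i ∈ B t) = ∅ := by
        intro i
        rw [Finset.filter_singleton, hne]
        simp
      have e0 : rk (∅ : Finset G) = 0 := Nat.le_zero.mp (by simpa using rk_le_card (∅ : Finset G))
      simp only [e, e0] at this
      simp at this
    obtain ⟨i, hi⟩ := hne
    refine ⟨i, Finset.mem_filter.mpr ⟨hs, hi⟩, ?_⟩
    intro j hj
    exact Finset.card_le_one.mp (hB1 s hs) j (Finset.mem_filter.mp hj).2 i hi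

end Pool.Agent.MP_6c8b06_co
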